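import Pool.Agent.Helper78.FQ.BdR
import Pool.Agent.Helper9.FQ.U1

/-!
# Project FQ (MP_0f6f3f_an), layer TZ: the law of the positions

`Tb_Vq_one`: `T V_q 1` is the component over the region of the class of `V_{b_n q} 1`. `norm_Mf_V`: the mass of `T V_q 1` on a set of positions is at most `p⁻¹` times the limit of the masses of `V_{b_n q} 1`.
-/

set_option autoImplicit false
set_option linter.unusedSectionVars false

open Filter Topology MeasureTheory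

namespace Pool.Agent.Helper78.FQ

open Pool.Agent.Helper84 Pool.Agent.Helper84.GN Pool.Agent.Helper84.GN.S3 Pool.Agent.Helper84.GN.S3.X
open Pool.Agent.Helper84.NI Pool.Agent.Helper84.GVN Pool.Agent.Helper90.RK Pool.Agent.Helper9
open Pool.Agent.Helper96.RK Pool.Agent.Helper66.FR Pool.Agent.Helper84.FR Pool.Agent.Helper55.FR Pool.Agent.Helper78.BM
open Pool.Agent.Helper35.FP Pool.Agent.Helper55.FP Pool.Agent.Helper78.BI Pool.Agent.Helper55.TZ
open Pool.Agent.Helper43.TZ (PP Dir Siz Lev)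
open Pool.Agent.Helper43.TA (ms)
open Pool.Agent.Helper9.FQ (mass ms_eq_lim)

variable {G1 X G Λ : Type} [Group G1] [TopologicalSpace G1] [IsTopologicalGroup G1] [MeasurableSpace X] [MulAction G1 X]
  [MeasurableConstSMul G1 X] [Group G] [Group Λ] [Countable Λ] {μ : Measure X} [SMulInvariantMeasure G1 X μ]
  [IsProbabilityMeasure μ] {a : Cocy G1 X Λ} {E : Emb Λ G} {b : ℕ → G1} {R : Reg G} {pd : PD G}

theorem KK_dl (c : ℕ → G1) : KK μ a E c (cst μ (dl 1)) = vec μ a E c := by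
  refine UE.eq ?_
  rw [val_KK, vec_eq, UE.val_mk]
  congr 1
  apply Subtype.ext
  funext n
  exact WW_one _

theorem Tb_Vq_one (q : G1) : Tb μ a E R b (Vq μ a E q (cst μ (dl 1))) = XPpr R (vec μ a E fun n => b n * q) := by
  rw [Tb_V, KK_dl]

theorem XPpr_ind (A : Set G) (ξ : UE μ (L2 G)) : iUX R A (XPpr R ξ) = XPpr R (UE.map μ (ind ℂ A) ξ) := by
  apply Subtype.ext
  rw [coe_iUX]
  have h := Pool.Agent.Helper84.FR.proj_comm (V := XUa μ R) (T := UE.map μ (ind ℂ A)) (T' := UE.map μ (ind ℂ A))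
    (fun x y => xinner_ind A x y) (fun x hx => ind_mem_XUa R A hx) (fun x hx => ind_mem_XUa R A hx) ξ
  exact h.symm

theorem norm_XPpr_le (ξ : UE μ (L2 G)) : ‖XPpr R ξ‖ ≤ ‖ξ‖ := by
  change ‖(XUa μ R).starProjection ξ‖ ≤ ‖ξ‖
  exact Submodule.norm_starProjection_apply_le _ _

theorem norm_Mf_V (B : BMap μ a E R pd b) {f : G → ℂ} (hf : ∀ γ, ‖f γ‖ ≤ 1) {P : Set G} (hP : ∀ γ, γ ∉ P → f γ = 0) (q : G1) :
    ‖Mf μ R f (iso B (Vq μ a E q (cst μ (dl 1))))‖ ^ 2 ≤ B.p⁻¹ * ms μ a E P fun n => b n * q := by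
  classical
  have hi : ∀ γ, ‖(P.indicator (fun _ => (1 : ℂ)) : G → ℂ) γ‖ ≤ 1 := by
    intro γ
    unfold Set.indicator
    split_ifs <;> simp
  have h1 : ∀ x : XUa μ R, Mf μ R f x = Mf μ R f (iUX R P x) := by
    intro x
    rw [Mf_ind, Mf_mul hf hi]
    congr 1
    congr 1
    funext γ
    by_cases h : γ ∈ P
    · rw [Set.indicator_of_mem h, mul_one]
    · rw [hP γ h, zero_mul]
  rw [iso_apply, map_smul, norm_smul, mul_pow, norm_inv, Complex.norm_real, Real.norm_of_nonneg (Real.sqrt_nonneg _), inv_pow,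
    Real.sq_sqrt B.pos.le]
  refine mul_le_mul_of_nonneg_left ?_ (inv_nonneg.2 B.pos.le)
  rw [h1, Tb_Vq_one, XPpr_ind]
  have h2 : ‖Mf μ R f (XPpr R (UE.map μ (ind ℂ P) (vec μ a E fun n => b n * q)))‖ ≤ ‖UE.map μ (ind ℂ P) (vec μ a E fun n => b n * q)‖ := by
    refine (norm_Mf_le hf _).trans ?_
    rw [one_mul]
    exact norm_XPpr_le _
  exact pow_le_pow_left₀ (norm_nonneg _) h2 2

section Bd

variable {𝔾 𝕊 : Type} [Group 𝔾] [TopologicalSpace 𝔾] [Group 𝕊] [TopologicalSpace 𝕊] {𝕂 : Subgroup 𝕊} {geo : Geo 𝔾 𝕊 𝕂}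

/-- The law of the positions for the boundary data. -/
theorem norm_E_V (F : FrmR geo R pd) (B : BMap μ a E R pd b)
    (h3 : Tendsto (fun g : G1 => μ {x | a.a g x ≠ 1}) (𝓝 1) (𝓝 0)) (hK : Kcont G1 μ) (hE : ErgU μ a E (Ctr b)) (hpl : PLf R pd)
    {F1 : Subgroup G1} {par : G1 → ℝ} {d : ℕ} (D : Dir G1 F1 par d) (hbF : ∀ n, b n ∈ F1) {f : 𝔾 → ℂ} (hf : ∀ g, ‖f g‖ ≤ 1)
    {P : Set G} (hP : ∀ γ, γ ∉ P → f (F.gf γ) = 0) {ε : ℝ} (s : D.S')
    (hm : ∀ᶠ n in (hyperfilter ℕ : Filter ℕ), mass μ a E P (b n * D.ι s) ≤ ε) :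
    ‖(bdDR F B h3 hK hE hpl D hbF).E f ((bdDR F B h3 hK hE hpl D hbF).T ((bdDR F B h3 hK hE hpl D hbF).V s (cst μ (dl 1))))‖ ^ 2 ≤
      B.p⁻¹ * ε := by
  have h1 := norm_Mf_V B (f := fun γ => f (F.gf γ)) (fun γ => hf _) hP (D.ι s)
  refine le_trans (le_of_eq ?_) (h1.trans (mul_le_mul_of_nonneg_left ?_ (inv_nonneg.2 B.pos.le)))
  · rfl
  · exact le_of_tendsto (ms_eq_lim P fun n => b n * D.ι s) hm

end Bd

end Pool.Agent.Helper78.FQ
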