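import Pool.Agent.Helper78.FQ.Fin
import Pool.Agent.Helper55.FQ.Cfg
import Pool.Agent.Helper50.FQ.Lev
import Pool.Agent.Helper78.BI.ErgD

/-!
# Project FQ (MP_0f6f3f_an), layer TZ: the node `u` in the configuration `Cf`

`cq_of`, `line_of`: the hypotheses of `Fin.lean` for a group `Gr`. `hir_of`, `reg_W`, `reg_F`. `wn_mem`, `wn_par`: the sequence `wn D u`. `erg_node`: ergodicity. `dim_node`: the inequality of the dimensions.
-/

set_option autoImplicit false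
set_option linter.unusedSectionVars false

open Filter Topology Matrix Pointwise MeasureTheory

namespace Pool.Agent.Helper78.FQ

open Pool.Agent.Helper96.SA Pool.Agent.Helper96.TO Pool.Agent.Helper69.SLN
open Pool.Agent.Helper84 Pool.Agent.Helper84.GN Pool.Agent.Helper84.GN.S3 Pool.Agent.Helper84.GN.S3.X
open Pool.Agent.Helper84.NI Pool.Agent.Helper84.GVN Pool.Agent.Helper90.RK Pool.Agent.Helper9
open Pool.Agent.Helper96.RK Pool.Agent.Helper66.FR Pool.Agent.Helper84.FR Pool.Agent.Helper55.FR Pool.Agent.Helper78.BM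
open Pool.Agent.Helper35.FP Pool.Agent.Helper55.FP Pool.Agent.Helper78.BI Pool.Agent.Helper55.TZ
open Pool.Agent.Helper35.TZ Pool.Agent.Helper2.BC
open Pool.Agent.Helper43.TZ (PP Dir Siz Lev opg)
open Pool.Agent.Helper9.FQ (mass)
open Pool.Agent.Helper84.GDL (GD)
open Pool.Agent.Helper87.FQ (Mh lsub SS line_of_cow)
open Pool.Agent.Helper55.FQ (Gr gG wn Cf)
open Pool.Agent.Helper45.FQ (HC)
open Pool.Agent.Helper50.SR (pr pr_ex)

section One

variable {L : Type} [LieRing L] [LieAlgebra ℝ L] {N : ℕ} {r : ℕ} {θ : L ≃ₗ⁅ℝ⁆ L} {b : Module.Basis (Fin N) ℝ L} {A : Submodule ℝ L}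
  {τ : Module.Dual ℝ A ≃ₗ[ℝ] A} {al : Fin r → Module.Dual ℝ A} {W : Fin r → A} {D : GD (autC b) (Fin r)} {Γ : Subgroup (autC b)}

theorem ea_single (g : Gr θ b A τ al W D) (u : Fin r) (t : ℝ) : (D.ea (Pi.single u t) : GL (Fin N) ℝ) = ex (t • TT_to b (W u : L)) := by
  have e : Pool.Agent.Helper77.FQ.eaA W (Pi.single u t) = t • W u := by
    rw [Pool.Agent.Helper77.FQ.eaA, Finset.sum_eq_single u (fun i _ hi => by rw [Pi.single_eq_of_ne hi, zero_smul])
      (fun hi => absurd (Finset.mem_univ u) hi), Pi.single_eq_same]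
  rw [g.ea, Pool.Agent.Helper77.FQ.eaG_coe, e, Submodule.coe_smul, map_smul]

theorem cq_of (g : Gr θ b A τ al W D) (u : Fin r) : Cq D u (W u) where
  orth k := g.K k
  ea t := ea_single g u t

theorem line_of (g : Gr θ b A τ al W D) (u : Fin r) : ∀ x : A, (∀ φ ∈ rootsL A, φ (W u) = 0 → φ x = 0) → ∃ c : ℝ, x = c • W u :=
  line_of_cow g.s.h g.s.hS (by rw [g.hW, if_pos rfl]) fun i hi => by rw [g.hW, if_neg hi]

theorem W_ne (g : Gr θ b A τ al W D) (u : Fin r) : W u ≠ 0 := by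
  intro h
  have h1 := g.hW u u
  rw [h, map_zero, if_pos rfl] at h1
  exact zero_ne_one h1

theorem root_of (g : Gr θ b A τ al W D) (h2 : 2 ≤ r) (u : Fin r) : ∃ φ ∈ rootsL A, φ (W u) = 0 := by
  have hn : Nontrivial (Fin r) := Fin.nontrivial_iff_two_le.2 h2
  obtain ⟨v, hv⟩ := exists_ne u
  exact ⟨al v, g.s.hS.root v, by rw [g.hW, if_neg hv]⟩

theorem hir_of (hf : ∀ R : ℝ, {l : Γ | ∀ i, D.mu (l : autC b) i ≤ R}.Finite) (B : Set (autC b)) (hB : IsCompact B) : (Γ.subtype ⁻¹' B).Finite := by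
  obtain ⟨C, hC0, hC⟩ := D.mu_shift (hB.union (isCompact_singleton (x := (1 : autC b))))
  refine (hf C).subset fun l hl i => ?_
  have h1 := hC (l : autC b) (Or.inl hl) 1 (Or.inr rfl) 1 i
  have h2 : D.mu (1 : autC b) i = 0 := by
    rw [D.mu_K D.K.one_mem]
    rfl
  rw [mul_one, mul_one, h2, sub_zero] at h1
  exact (le_abs_self _).trans h1

theorem reg_W (hf : ∀ R : ℝ, {l : Γ | ∀ i, D.mu (l : autC b) i ≤ R}.Finite) (u : Fin r) (n : ℕ) :
    ∃ C : ℝ, ∀ γ ∈ ((Pool.Agent.Helper55.FQ.gp D Γ hf).reg (Finset.univ.erase u)).W n, ∀ i, i ≠ u → D.mu (Γ.subtype γ) i ≤ C :=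
  ⟨n, fun _ hγ i hi => hγ i (Finset.mem_erase.2 ⟨hi, Finset.mem_univ _⟩)⟩

theorem reg_F (hf : ∀ R : ℝ, {l : Γ | ∀ i, D.mu (l : autC b) i ≤ R}.Finite) (u : Fin r) (n : ℕ) :
    Tendsto (fun γ : Γ => D.mu (Γ.subtype γ) u) (((Pool.Agent.Helper55.FQ.gp D Γ hf).reg (Finset.univ.erase u)).F n) atTop :=
  (Pool.Agent.Helper55.FQ.gp D Γ hf).tendsto_gap (Finset.univ.erase u) n (Finset.notMem_erase u _)

theorem wn_coe (g : Gr θ b A τ al W D) (u : Fin r) (n : ℕ) : ((wn D u n : autC b) : GL (Fin N) ℝ) = ex ((n : ℝ) • TT_to b (W u : L)) := ea_single g u _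

theorem wn_mem (g : Gr θ b A τ al W D) (u : Fin r) (n : ℕ) : wn D u n ∈ opg (autC b) (TT_to b (W u : L)) := ⟨n, wn_coe g u n⟩

theorem wn_par (g : Gr θ b A τ al W D) (u : Fin r) :
    Tendsto (fun n => pr (autC b) (TT_to b (W u : L)) (wn D u n)) (hyperfilter ℕ : Filter ℕ) atTop := by
  have h1 : (fun n => pr (autC b) (TT_to b (W u : L)) (wn D u n)) = fun n : ℕ => (n : ℝ) := by
    funext n
    refine pr_ex ((TT_symm_iff_to g.s.h (W u : L)).2 (g.s.hA.neg _ (W u).2)) ?_ (wn_coe g u n)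
    intro h0
    refine W_ne g u (Subtype.ext (TT_inj_to g.s.h ?_))
    rw [h0, Submodule.coe_zero, map_zero]
  rw [h1]
  exact tendsto_natCast_atTop_atTop.mono_left Nat.hyperfilter_le_atTop

end One

variable {L L' : Type} [LieRing L] [LieAlgebra ℝ L] [LieRing L'] [LieAlgebra ℝ L'] {N N' : ℕ} {r : ℕ}
  {θ : L ≃ₗ⁅ℝ⁆ L} {θ' : L' ≃ₗ⁅ℝ⁆ L'} {b : Module.Basis (Fin N) ℝ L} {b' : Module.Basis (Fin N') ℝ L'}
  {A : Submodule ℝ L} {A' : Submodule ℝ L'} {τ : Module.Dual ℝ A ≃ₗ[ℝ] A} {τ' : Module.Dual ℝ A' ≃ₗ[ℝ] A'}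
  {al : Fin r → Module.Dual ℝ A} {al' : Fin r → Module.Dual ℝ A'} {W : Fin r → A} {W' : Fin r → A'}
  {D : GD (autC b) (Fin r)} {D' : GD (autC b') (Fin r)} [MeasurableSpace (autC b)] [BorelSpace (autC b)]
  {Γ : Subgroup (autC b)} {Λ : Subgroup (autC b')} [Countable Γ] [Countable Λ]
  {X : Type} [MeasurableSpace X] [MulAction (autC b) X] [MeasurableConstSMul (autC b) X] {μ : Measure X}
  [SMulInvariantMeasure (autC b) X μ] [IsProbabilityMeasure μ] {a : Cocy (autC b) X Γ} {E : Emb Γ Λ}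

/-- The Levi direction of the source at the node `u`. -/
theorem dirS_node (C : Cf θ θ' A A' τ τ' al al' W W' D D' μ a E) (u : Fin r) :
    Nonempty (Pool.Agent.Helper50.FQ.DirS (autC b) (opg (autC b) (TT_to b (W u : L))) (pr (autC b) (TT_to b (W u : L)))
      (Pool.Agent.Helper50.FQ.sH b A (W u))) := by
  have i1 : LieAlgebra.IsSimple ℝ L := C.simple
  exact (Pool.Agent.Helper50.FQ.src_levi C.G.s.h (isAdj_autC b) (autC_sub C.G.s.h) C.G.s.hA (W_ne C.G u) (root_of C.G C.h2 u)).1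

/-- **Ergodicity at the node `u`.** -/
theorem erg_node (C : Cf θ θ' A A' τ τ' al al' W W' D D' μ a E) (u : Fin r) : ErgU μ a E (Ctr (wn D u)) := by
  obtain ⟨Dr⟩ := dirS_node C u
  exact ergU_dir Dr.toDir C.cyc.hinv C.cyc.h3 C.cyc.hK (wn_mem C.G u) (wn_par C.G u)

/-- **The inequality of the dimensions at the node `u`.** -/
theorem dim_node (C : Cf θ θ' A A' τ τ' al al' W W' D D' μ a E) (u j : Fin r)
    (B : BMap μ a E ((Pool.Agent.Helper55.FQ.gp D' Λ C.hf').reg (Finset.univ.erase j)) (D'.pd j Λ) (wn D u)) :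
    Module.finrank ℝ (lsub A (W u)) ≤ Module.finrank ℝ (lsub A' (W' j)) := by
  obtain ⟨Dr⟩ := dirS_node C u
  obtain ⟨hm, σ, hc, -⟩ := C.hc
  have h1 := dim_le C.G'.s.h C.G'.s.hA (cq_of C.G' j) Λ.subtype (reg_W C.hf' j) (reg_F C.hf' j) B C.cyc.h3 C.cyc.hK (erg_node C u) Dr.toDir
    (wn_mem C.G u) (hir_of C.hf') (line_of C.G' j) (wn_par C.G u) σ (fun S hS => hc.ms (by rwa [BorelSpace.measurable_eq (α := autC b)])) hc.coc
  rwa [Pool.Agent.Helper50.FQ.finrank_sH C.G.s.h] at h1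

end Pool.Agent.Helper78.FQ
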