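import Pool.Agent.Helper78.FQ.Fr
import Pool.Agent.Helper55.TZ.Am

/-!
# Project FQ (MP_0f6f3f_an), layer TZ: amenability for an abstract target

`Dg.exists_mono`: a diagonalisation with increasing eigenvalues. `cx D g`: the complex matrix of `g` in these coordinates. `CN D geo`: the compact group of the orthogonal elements of the parabolic group which act trivially on the block.
`amnR : AmnR F` if every element of the parabolic group which acts trivially on the block is, up to `CN`, an element with the diagonal part `exp(τ H)`: the densities of `am_PH`, averaged over `CN`.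
-/

set_option autoImplicit false
set_option linter.unusedSectionVars false

open Filter Topology Matrix MeasureTheory

namespace Pool.Agent.Helper78.FQ

open Pool.Agent.Helper96.SA Pool.Agent.Helper90.RK Pool.Agent.Helper84.NI
open Pool.Agent.Helper84 Pool.Agent.Helper84.GN Pool.Agent.Helper84.GN.S3
open Pool.Agent.Helper35.FP Pool.Agent.Helper55.TZ

variable {N : ℕ}

/-- A diagonalisation with increasing eigenvalues. -/
theorem Dg.exists_mono {H : Mat N} (hH : Hᵀ = H) : ∃ D : Dg H, Monotone D.h := by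
  obtain ⟨D⟩ := exists_dg hH
  let σ := Tuple.sort D.h
  have hP : ∀ A B : Mat N, A.submatrix id σ * B.submatrix σ id = A * B := fun A B => Matrix.submatrix_mul_equiv A B id σ id
  refine ⟨⟨D.U.submatrix id σ, D.h ∘ σ, ?_, ?_, ?_⟩, Tuple.monotone_sort D.h⟩
  · rw [transpose_submatrix]
    have h1 : D.Uᵀ.submatrix σ id * D.U.submatrix id σ = (D.Uᵀ * D.U).submatrix σ σ :=
      Matrix.submatrix_mul_equiv D.Uᵀ D.U σ (Equiv.refl (Fin N)) σ
    rw [h1, D.UU, Matrix.submatrix_one_equiv]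
  · rw [transpose_submatrix, hP, D.UU']
  · rw [transpose_submatrix]
    have h1 : D.U.submatrix id σ * diagonal (D.h ∘ σ) = (D.U * diagonal D.h).submatrix id σ := by
      ext i j
      rw [mul_diagonal, submatrix_apply, submatrix_apply, mul_diagonal]
      rfl
    rw [h1, hP]
    exact D.spec

variable {G0 : Subgroup (GL (Fin N) ℝ)} {H : Mat N} (D : Dg H)

/-- The complex matrix in the coordinates. -/
def cx (g : G0) : MN N := (D.co (mx g)).map Complex.ofReal

theorem cx_apply (g : G0) (i j : Fin N) : cx D g i j = (D.co (mx g) i j : ℂ) := rfl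

theorem cx_mul (g g' : G0) : cx D (g * g') = cx D g * cx D g' := by
  unfold cx
  rw [mx_mul, D.co_mul]
  exact Matrix.map_mul (f := Complex.ofRealHom)

theorem cx_one : cx D (1 : G0) = 1 := by
  unfold cx
  rw [mx_one, D.co_one]
  exact Matrix.map_one _ Complex.ofReal_zero Complex.ofReal_one

theorem cx_mul_inv (g : G0) : cx D g * cx D g⁻¹ = 1 := by rw [← cx_mul, mul_inv_cancel, cx_one]

theorem continuous_cx : Continuous (cx D : G0 → MN N) :=
  (D.continuous_co.comp continuous_mx).matrix_map Complex.continuous_ofReal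

section Av

variable {G : Type} [Group G] {ql : MN N → MN N} (h1 : ∀ A, IsU (ql A)) (h2 : ∀ A : MN N, A.det ≠ 0 → Lt ((ql A)ᴴ * A))
  {A : Finset G} {κ : MN N → G → ℝ}
  (k0 : ∀ k t, 0 ≤ κ k t) (kA : ∀ k t, t ∉ A → κ k t = 0) (kS : ∀ k, IsU k → ∑ t ∈ A, κ k t = 1)
  (kc : ∀ ε' : ℝ, 0 < ε' → ∃ d' : ℝ, 0 < d' ∧ ∀ k k' : MN N, IsU k → IsU k' →
    (∀ i j : Fin N, i < j → ‖(kᴴ * k') i j‖ ≤ d') → ∑ t ∈ A, |κ k t - κ k' t| ≤ ε')

include h1 h2 kA kc in
theorem continuous_F' (t : G) : Continuous fun g : G0 => κ (ql (cx D g)) t := by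
  by_cases ht : t ∈ A
  · rw [continuous_iff_continuousAt]
    intro g
    rw [ContinuousAt, Metric.tendsto_nhds]
    intro ε hε
    obtain ⟨d', hd', h4⟩ := kc (ε / 2) (half_pos hε)
    have hc : Continuous fun g' : G0 => ∑ k, ∑ l, ‖(1 - cx D g' * cx D g⁻¹) k l‖ := by
      refine continuous_finsetSum _ fun k _ => continuous_finsetSum _ fun l _ => ?_
      exact ((continuous_const.sub ((continuous_cx D).mul continuous_const)).matrix_elem k l).norm
    have h5 := hc.tendsto g
    have h6 : ∑ k, ∑ l, ‖((1 : MN N) - cx D g * cx D g⁻¹) k l‖ = 0 := by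
      rw [cx_mul_inv, sub_self]
      simp
    rw [h6] at h5
    filter_upwards [h5.eventually (gt_mem_nhds hd')] with g' hg'
    rw [Real.dist_eq]
    calc |κ (ql (cx D g')) t - κ (ql (cx D g)) t|
        ≤ ∑ t ∈ A, |κ (ql (cx D g')) t - κ (ql (cx D g)) t| :=
          Finset.single_le_sum (f := fun t => |κ (ql (cx D g')) t - κ (ql (cx D g)) t|) (fun _ _ => abs_nonneg _) ht
      _ ≤ ε / 2 := h4 _ _ (h1 _) (h1 _) fun i j hij =>
          (near h1 h2 (cx_mul_inv D g) (cx_mul_inv D g') i j hij).trans hg'.le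
      _ < ε := half_lt_self hε
  · have : (fun g : G0 => κ (ql (cx D g)) t) = fun _ => 0 := funext fun g => kA _ t ht
    rw [this]
    exact continuous_const

include h1 h2 kA kc in
theorem F_mul' (t : G) (g x : G0) (hx : Lt (cx D x)) : κ (ql (cx D (g * x))) t = κ (ql (cx D g)) t := by
  refine κ_flag kA kc (h1 _) (h1 _) ?_ t
  have e : (ql (cx D (g * x)))ᴴ * ql (cx D g) = ((ql (cx D (g * x)))ᴴ * cx D (g * x)) * (cx D x⁻¹ * (cx D g⁻¹ * ql (cx D g))) := by
    have e1 : cx D (g * x) * cx D x⁻¹ * cx D g⁻¹ = 1 := by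
      rw [← cx_mul, ← cx_mul, mul_inv_cancel_right, mul_inv_cancel, cx_one]
    calc (ql (cx D (g * x)))ᴴ * ql (cx D g)
        = (ql (cx D (g * x)))ᴴ * (cx D (g * x) * cx D x⁻¹ * cx D g⁻¹) * ql (cx D g) := by rw [e1, Matrix.mul_one]
      _ = _ := by simp only [Matrix.mul_assoc]
  rw [e]
  exact (h2 _ (det_ne (cx_mul_inv D _))).mul ((hx.inv (cx_mul_inv D x)).mul (lt_inv_ql h1 h2 (cx_mul_inv D g)))

variable {C : Subgroup G0} [MeasurableSpace C] [BorelSpace C] (μ : Measure C) [IsProbabilityMeasure μ] [μ.IsMulLeftInvariant]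

include h1 h2 k0 kA kS kc in
theorem integrable_F' (t : G) (g : G0) : Integrable (fun c : C => κ (ql (cx D (g * (c : G0)))) t) μ := by
  have hc : Continuous fun c : C => κ (ql (cx D (g * (c : G0)))) t :=
    (continuous_F' D h1 h2 kA kc t).comp (continuous_const.mul continuous_subtype_val)
  refine (integrable_const (1 : ℝ)).mono' hc.aestronglyMeasurable (ae_of_all _ fun c => ?_)
  rw [Real.norm_eq_abs, abs_of_nonneg (k0 _ _)]
  exact κ_le k0 kA kS (h1 _) t

variable (ql κ) in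
/-- The averages. -/
noncomputable def favR (t : G) (g : G0) : ℝ := ∫ c, κ (ql (cx D (g * ((c : C) : G0)))) t ∂μ

include k0 in
theorem favR_nonneg (t : G) (g : G0) : 0 ≤ favR D ql κ μ t g := integral_nonneg fun _ => k0 _ _

include kA in
theorem favR_zero {t : G} (ht : t ∉ A) (g : G0) : favR D ql κ μ t g = 0 := by
  unfold favR
  rw [integral_congr_ae (ae_of_all _ fun c => kA _ t ht), integral_zero]

include h1 h2 k0 kA kS kc in
theorem continuous_favR [FirstCountableTopology G0] (t : G) : Continuous (favR D ql κ μ t) := by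
  refine continuous_of_dominated (bound := fun _ => (1 : ℝ)) (fun g => ?_) (fun g => ?_) (integrable_const _) ?_
  · exact (integrable_F' D h1 h2 k0 kA kS kc μ t g).aestronglyMeasurable
  · refine ae_of_all _ fun c => ?_
    rw [Real.norm_eq_abs, abs_of_nonneg (k0 _ _)]
    exact κ_le k0 kA kS (h1 _) t
  · exact ae_of_all _ fun c => (continuous_F' D h1 h2 kA kc t).comp (continuous_mul_const _)

include h1 h2 k0 kA kS kc in
theorem favR_sum (g : G0) : ∑ t ∈ A, favR D ql κ μ t g = 1 := by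
  unfold favR
  rw [← integral_finsetSum _ fun t _ => integrable_F' D h1 h2 k0 kA kS kc μ t g,
    integral_congr_ae (ae_of_all _ fun c => kS _ (h1 _))]
  simp

include h1 h2 kA kc in
/-- The invariance. -/
theorem favR_inv (t : G) (g : G0) {x : G0} (d : C) (hd : ∀ c : C, Lt (cx D ((c : G0)⁻¹ * (d : G0)⁻¹ * x * (c : G0)))) :
    favR D ql κ μ t (g * x) = favR D ql κ μ t g := by
  have key : ∀ c : C, κ (ql (cx D (g * x * (c : G0)))) t = κ (ql (cx D (g * ((d * c : C) : G0)))) t := by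
    intro c
    have e1 : g * x * (c : G0) = g * ((d * c : C) : G0) * ((c : G0)⁻¹ * (d : G0)⁻¹ * x * (c : G0)) := by
      rw [Subgroup.coe_mul]
      group
    rw [e1]
    exact F_mul' D h1 h2 kA kc t _ _ (hd c)
  unfold favR
  rw [integral_congr_ae (ae_of_all _ key)]
  exact integral_mul_left_eq_self (μ := μ) (fun c : C => κ (ql (cx D (g * ((c : C) : G0)))) t) d

end Av

variable {𝕊 : Type} [Group 𝕊] [TopologicalSpace 𝕊] {𝕂 : Subgroup 𝕊} (geo : Geo G0 𝕊 𝕂)

/-- The compact group of the averages. -/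
def CN : Subgroup G0 where
  carrier := {c | (mx c)ᵀ * mx c = 1 ∧ ∃ hc : c ∈ geo.Q, geo.nb ⟨c, hc⟩ = 1}
  mul_mem' {a b} ha hb := by
    obtain ⟨a1, a2, a3⟩ := ha
    obtain ⟨b1, b2, b3⟩ := hb
    refine ⟨orth_mx_mul a1 b1, geo.Q.mul_mem a2 b2, ?_⟩
    have h1 : (⟨a * b, geo.Q.mul_mem a2 b2⟩ : geo.Q) = ⟨a, a2⟩ * ⟨b, b2⟩ := rfl
    rw [h1, map_mul, a3, b3, one_mul]
  one_mem' := ⟨by rw [mx_one, transpose_one, Matrix.one_mul], geo.Q.one_mem, map_one geo.nb⟩
  inv_mem' {a} ha := by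
    obtain ⟨a1, a2, a3⟩ := ha
    refine ⟨orth_mx_inv a1, geo.Q.inv_mem a2, ?_⟩
    have h1 : (⟨a⁻¹, geo.Q.inv_mem a2⟩ : geo.Q) = ⟨a, a2⟩⁻¹ := rfl
    rw [h1, map_inv, a3, inv_one]

theorem compact_CN [T1Space 𝕊] (hG : IsClosed (G0 : Set (GL (Fin N) ℝ))) (hQ : IsClosed (geo.Q : Set G0)) : IsCompact (CN geo : Set G0) := by
  refine (isCompact_KG0 hG).of_isClosed_subset ?_ (fun c hc => hc.1)
  have h1 : (CN geo : Set G0) = {c : G0 | (mx c)ᵀ * mx c = 1} ∩ (Subtype.val '' {q : geo.Q | geo.nb q = 1}) := by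
    ext c
    constructor
    · rintro ⟨h1, h2, h3⟩
      exact ⟨h1, ⟨c, h2⟩, h3, rfl⟩
    · rintro ⟨h1, q, h2, rfl⟩
      exact ⟨h1, q.2, h2⟩
  rw [h1]
  refine IsClosed.inter (isClosed_eq ((continuous_mx.matrix_transpose).mul continuous_mx) continuous_const) ?_
  exact hQ.isClosedEmbedding_subtypeVal.isClosedMap _ (isClosed_singleton.preimage geo.nbc)

variable {G : Type} [Group G] {R : Reg G} {pd : PD G}

/-- **Amenability.** -/
theorem amnR [T1Space 𝕊] [FirstCountableTopology G0] (hG : IsClosed (G0 : Set (GL (Fin N) ℝ))) (hQc : IsClosed (geo.Q : Set G0)) (hmono : Monotone D.h)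
    (hQ : ∀ g : G0, g ∈ geo.Q ↔ Tr D.h (D.co (mx g)))
    (hker : ∀ q : geo.Q, geo.nb q = 1 → ∃ c ∈ CN geo, ∃ τ : ℝ, ∀ i j, D.h i = D.h j →
      D.co (mx (c⁻¹ * (q : G0))) i j = if i = j then Real.exp (τ * D.h i) else 0)
    (F : FrmR geo R pd) (P : PH G N) (hP : ∀ g, P.ι g = cx D (F.ir g)) : AmnR F := by
  intro Q ε hε
  obtain ⟨ql, h1, h2, -, -⟩ := exists_ql N
  obtain ⟨A, κ, d, hd, k0, kA, kS, kh, kc⟩ := am_PH P Q (pow_pos hε 2)
  have iC : CompactSpace (CN geo) := isCompact_iff_compactSpace.1 (compact_CN geo hG hQc)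
  let iM : MeasurableSpace (CN geo) := borel _
  have iB : BorelSpace (CN geo) := ⟨rfl⟩
  obtain ⟨μ, hμ1, hμ2⟩ : ∃ μ : Measure (CN geo), IsProbabilityMeasure μ ∧ μ.IsMulLeftInvariant := by
    refine ⟨Measure.haarMeasure ⊤, ⟨?_⟩, inferInstance⟩
    have h := Measure.haarMeasure_self (K₀ := (⊤ : TopologicalSpace.PositiveCompacts (CN geo)))
    simpa using h
  have h2' : ∀ A : MN N, A.det ≠ 0 → Lt ((ql A)ᴴ * A) := h2
  -- the elements of `CN` commute with the scalar blocks
  have hCN : ∀ c ∈ CN geo, ∀ i j, D.h i ≠ D.h j → D.co (mx c) i j = 0 := by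
    intro c hc i j hij
    have h3 : Tr D.h (D.co (mx c)) := (hQ c).1 hc.2.1
    rcases lt_or_gt_of_ne hij with h4 | h4
    · exact h3 i j h4
    · have h5 : (D.co (mx c))ᵀ * D.co (mx c) = 1 := (D.orth_iff).1 hc.1
      have h6 : Tr D.h (D.co (mx c))ᵀ := h3.inv (by rw [← mul_eq_one_comm]; exact h5)
      exact h6 j i h4
  refine ⟨A, fun t g => √(favR D ql κ μ t g), fun t => Real.continuous_sqrt.comp (continuous_favR D h1 h2' k0 kA kS kc μ t),
    fun t g => Real.sqrt_nonneg _, fun t ht g => ?_, fun g => ?_, fun t g y hy => ?_, fun h' hh g S'' => ?_⟩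
  · change √(favR D ql κ μ t g) = 0
    rw [favR_zero D kA μ ht, Real.sqrt_zero]
  · rw [← favR_sum D h1 h2' k0 kA kS kc μ g]
    refine Finset.sum_congr rfl fun t _ => ?_
    rw [Real.sq_sqrt (favR_nonneg D k0 μ t g)]
  · obtain ⟨c, hc, τ, hcτ⟩ := hker y hy
    change √(favR D ql κ μ t (g * (y : G0))) = √(favR D ql κ μ t g)
    congr 1
    refine favR_inv D h1 h2' kA kc μ t g ⟨c, hc⟩ fun c' => ?_
    intro i j hij
    have hyQ : c⁻¹ * (y : G0) ∈ geo.Q := geo.Q.mul_mem (geo.Q.inv_mem hc.2.1) y.2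
    have e1 : ((c' : G0))⁻¹ * ((⟨c, hc⟩ : CN geo) : G0)⁻¹ * (y : G0) * (c' : G0) = (c' : G0)⁻¹ * (c⁻¹ * (y : G0)) * (c' : G0) := by
      change (c' : G0)⁻¹ * c⁻¹ * (y : G0) * (c' : G0) = _
      group
    have hT : Tr D.h (D.co (mx ((c' : G0)⁻¹ * (c⁻¹ * (y : G0)) * (c' : G0)))) :=
      (hQ _).1 (geo.Q.mul_mem (geo.Q.mul_mem (geo.Q.inv_mem c'.2.2.1) hyQ) c'.2.2.1)
    rw [e1, cx_apply]
    rcases lt_or_eq_of_le (hmono hij.le) with h5 | h5
    · rw [hT i j h5, Complex.ofReal_zero]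
    · -- the same block
      have hc1 := hCN _ ((CN geo).inv_mem c'.2)
      have hc2 := hCN _ c'.2
      have e2 : D.co (mx ((c' : G0)⁻¹ * (c⁻¹ * (y : G0)) * (c' : G0))) i j = Real.exp (τ * D.h i) * (D.co (mx ((c' : G0)⁻¹)) * D.co (mx (c' : G0))) i j := by
        rw [mx_mul, mx_mul, D.co_mul, D.co_mul, Matrix.mul_assoc, Matrix.mul_apply, Matrix.mul_apply, Finset.mul_sum]
        refine Finset.sum_congr rfl fun k _ => ?_
        by_cases hk : D.h i = D.h k
        · have e3 : (D.co (mx (c⁻¹ * (y : G0))) * D.co (mx (c' : G0))) k j = Real.exp (τ * D.h i) * D.co (mx (c' : G0)) k j := by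
            rw [Matrix.mul_apply, Finset.sum_eq_single k]
            · rw [hcτ k k rfl, if_pos rfl, hk]
            · intro l _ hl
              by_cases hl' : D.h k = D.h l
              · rw [hcτ k l hl', if_neg (Ne.symm hl), zero_mul]
              · rw [hc2 l j (fun h => hl' (by rw [h, ← h5, hk])), mul_zero]
            · intro h
              exact absurd (Finset.mem_univ _) h
          rw [e3]
          ring
        · rw [hc1 i k hk, zero_mul, zero_mul, mul_zero]
      rw [e2, ← D.co_mul, mx_inv_mul, D.co_one, Matrix.one_apply_ne hij.ne, mul_zero, Complex.ofReal_zero]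
  · have e2 : ∀ t ∈ S'', (√(favR D ql κ μ t (F.ir h' * g)) - √(favR D ql κ μ (h'⁻¹ * t) g)) ^ 2 ≤
        |favR D ql κ μ t (F.ir h' * g) - favR D ql κ μ (h'⁻¹ * t) g| := by
      intro t _
      exact Pool.Agent.Helper55.TZ.sqrt_sub_sq_le (favR_nonneg D k0 μ _ _) (favR_nonneg D k0 μ _ _)
    refine (Finset.sum_le_sum e2).trans ?_
    have hI : ∀ t, Integrable (fun c : CN geo => κ (ql (cx D (F.ir h' * g * (c : G0)))) t - κ (ql (cx D (g * (c : G0)))) (h'⁻¹ * t)) μ :=
      fun t => (integrable_F' D h1 h2' k0 kA kS kc μ t _).sub (integrable_F' D h1 h2' k0 kA kS kc μ _ g)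
    calc ∑ t ∈ S'', |favR D ql κ μ t (F.ir h' * g) - favR D ql κ μ (h'⁻¹ * t) g|
        ≤ ∑ t ∈ S'', ∫ c, |κ (ql (cx D (F.ir h' * g * ((c : CN geo) : G0)))) t - κ (ql (cx D (g * ((c : CN geo) : G0)))) (h'⁻¹ * t)| ∂μ := by
          refine Finset.sum_le_sum fun t _ => ?_
          unfold favR
          rw [← integral_sub (integrable_F' D h1 h2' k0 kA kS kc μ t _) (integrable_F' D h1 h2' k0 kA kS kc μ _ g)]
          exact abs_integral_le_integral_abs
      _ = ∫ c, ∑ t ∈ S'', |κ (ql (cx D (F.ir h' * g * ((c : CN geo) : G0)))) t - κ (ql (cx D (g * ((c : CN geo) : G0)))) (h'⁻¹ * t)| ∂μ :=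
          (integral_finsetSum _ fun t _ => (hI t).abs).symm
      _ ≤ ∫ _c : CN geo, ε ^ 2 ∂μ := by
          refine integral_mono_of_nonneg (ae_of_all _ fun c => Finset.sum_nonneg fun _ _ => abs_nonneg _)
            (integrable_const _) (ae_of_all _ fun c => ?_)
          refine kh h' hh _ _ (h1 _) (h1 _) (fun i j hij => ?_) S''
          have e3 : (ql (cx D (F.ir h' * g * (c : G0))))ᴴ * P.ι h' * ql (cx D (g * (c : G0))) =
              ((ql (cx D (F.ir h' * g * (c : G0))))ᴴ * cx D (F.ir h' * g * (c : G0))) * (cx D (g * (c : G0))⁻¹ * ql (cx D (g * (c : G0)))) := by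
            have e4 : cx D (F.ir h' * g * (c : G0)) * cx D (g * (c : G0))⁻¹ = P.ι h' := by
              rw [← cx_mul, hP]
              congr 1
              group
            rw [← e4]
            simp only [Matrix.mul_assoc]
          rw [e3]
          have h5 := ((h2' _ (det_ne (cx_mul_inv D (F.ir h' * g * (c : G0))))).mul
            (lt_inv_ql h1 h2' (cx_mul_inv D (g * (c : G0))))) i j hij
          rw [h5, norm_zero]
          exact hd.le
      _ = ε ^ 2 := by simp

end Pool.Agent.Helper78.FQ
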