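import Pool.Agent.Helper55.TZ.Bri

/-!
# Project FQ (MP_0f6f3f_an), layer TZ: boundary data over an arbitrary geometry and an arbitrary region

`FrmR geo R pd`: frames of a discrete group `G` in a group `𝔾` with the geometry `geo : Geo 𝔾 𝕊 𝕂`, over the region `R : Reg G` with the pseudometric `pd : PD G` of the positions. `bdR`: the boundary data given by the
frames and a boundary map. `bdDR`: the same over the Levi group of a direction. `hppR`: the ping-pong operators. `contraR`: the contradiction if the dimension of `𝕊` is smaller than the dimension of the direction.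
-/

set_option autoImplicit false
set_option linter.unusedSectionVars false

open Filter Topology MeasureTheory

namespace Pool.Agent.Helper78.FQ

open Pool.Agent.Helper84 Pool.Agent.Helper84.GN Pool.Agent.Helper84.GN.S3 Pool.Agent.Helper84.GN.S3.X
open Pool.Agent.Helper84.NI Pool.Agent.Helper84.GVN Pool.Agent.Helper90.RK Pool.Agent.Helper9
open Pool.Agent.Helper96.RK Pool.Agent.Helper66.FR Pool.Agent.Helper84.FR Pool.Agent.Helper55.FR Pool.Agent.Helper78.BM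
open Pool.Agent.Helper35.FP Pool.Agent.Helper55.FP Pool.Agent.Helper78.BI Pool.Agent.Helper55.TZ
open Pool.Agent.Helper43.TZ (PP Dir Siz Lev)
open Pool.Agent.Helper96.FR (contVec mem_contVec isClosed_contVec)

/-- Frames of `G` in `𝔾` over the region `R`. -/
structure FrmR {𝔾 𝕊 : Type} [Group 𝔾] [TopologicalSpace 𝔾] [Group 𝕊] [TopologicalSpace 𝕊] {𝕂 : Subgroup 𝕊} (geo : Geo 𝔾 𝕊 𝕂)
    {G : Type} [Group G] (R : Reg G) (pd : PD G) where
  /-- the representation of `G` -/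
  ir : G →* 𝔾
  /-- the points -/
  gf : G → 𝔾
  cov : ∀ f : 𝔾 → ℂ, Bf geo f → ∀ (k : G) (n : ℕ), Tendsto (fun γ => f (gf (γ * k)) - f ((ir k)⁻¹ * gf γ)) (R.F n) (𝓝 0)
  av : ∀ f : 𝔾 → ℂ, Yf geo f → AV R pd fun γ => f (gf γ)
  cpt : ∀ n : ℕ, ∃ B : Set 𝕊, IsCompact B ∧ ∀ γ ∈ R.W n, geo.nb (geo.r (gf γ)) ∈ B

variable {G1 X G Λ : Type} [Group G1] [TopologicalSpace G1] [IsTopologicalGroup G1] [MeasurableSpace X] [MulAction G1 X]
  [MeasurableConstSMul G1 X] [Group G] [Group Λ] [Countable Λ] {μ : Measure X} [SMulInvariantMeasure G1 X μ]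
  [IsProbabilityMeasure μ] {a : Cocy G1 X Λ} {E : Emb Λ G} {b : ℕ → G1}

variable {𝔾 𝕊 : Type} [Group 𝔾] [TopologicalSpace 𝔾] [Group 𝕊] [TopologicalSpace 𝕊] {𝕂 : Subgroup 𝕊} {geo : Geo 𝔾 𝕊 𝕂}
  {R : Reg G} {pd : PD G}

/-- **The boundary data.** -/
noncomputable def bdR (F : FrmR geo R pd) (B : BMap μ a E R pd b)
    (h3 : Tendsto (fun g : G1 => μ {x | a.a g x ≠ 1}) (𝓝 1) (𝓝 0)) (hK : Kcont G1 μ) (hE : ErgU μ a E (Ctr b)) (hpl : PLf R pd) :
    BD geo G (cen b) (XL μ (L2 G)) (XUa μ R) where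
  ir := F.ir
  W := clR μ (lamR G)
  WU := XBU R
  T := iso B
  TW k x := by
    rw [iso_apply, iso_apply, map_smul]
    congr 1
    exact Tb_W k x
  E f := Mf μ _ fun γ => f (F.gf γ)
  E_one x := by rw [Mf_const, one_smul]
  E_add f f' hf hf' x := by
    obtain ⟨C, hC⟩ := hf.bdd
    obtain ⟨C', hC'⟩ := hf'.bdd
    exact Mf_add (fun γ => hC _) (fun γ => hC' _) x
  E_smul c f hf x := by
    obtain ⟨C, hC⟩ := hf.bdd
    exact Mf_smul (fun γ => hC _) c x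
  E_mul f f' hf hf' x := by
    obtain ⟨C, hC⟩ := hf.bdd
    obtain ⟨C', hC'⟩ := hf'.bdd
    exact (Mf_mul (fun γ => hC _) (fun γ => hC' _) x).symm
  E_star f hf x y := by
    obtain ⟨C, hC⟩ := hf.bdd
    exact Mf_adj (fun γ => hC _) x y
  E_pos n c hc h u := by
    choose C hC using fun i j => (hc i j).bdd
    refine Mf_pos (C := ∑ i, ∑ j, |C i j|) (fun i j γ => c i j (F.gf γ)) (fun i j γ => ?_) (fun γ z => h (F.gf γ) z) u
    refine ((hC i j _).trans (le_abs_self _)).trans ?_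
    refine (Finset.single_le_sum (f := fun j => |C i j|) (fun j _ => abs_nonneg _) (Finset.mem_univ j)).trans ?_
    exact Finset.single_le_sum (f := fun i => ∑ j, |C i j|) (fun i _ => Finset.sum_nonneg fun j _ => abs_nonneg _)
      (Finset.mem_univ i)
  E_cov k f hf x := by
    obtain ⟨C, hC⟩ := hf.bdd
    rw [Mf_XBU (fun γ => hC _) k x]
    exact Mf_congr (fun γ => hC _) (fun γ => hC _) (fun n => F.cov f hf k n) _
  E_lim f C hf hC hlim x := by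
    refine Mf_lim (fun j γ => hC j _) (fun n ε hε => ?_) x
    obtain ⟨D, hD, hD'⟩ := F.cpt n
    filter_upwards [hlim D hD ε hε] with j hj
    filter_upwards [le_principal_iff.1 (R.le n)] with γ hγ
    exact hj _ (hD' γ hγ)
  pvm f hf x := by
    rw [adj_iso, iso_apply, iso_apply, map_smul]
    congr 1
    exact (B.T_Ph (F.av f hf) x).symm
  CC := CCs μ a E _ b
  CC_T := by
    rintro c (⟨v, hv, rfl⟩ | ⟨D, hD, rfl⟩) x
    · change iso B (Vq μ a E v x) = sSU μ _ _ (iso B x)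
      rw [iso_apply, iso_apply, map_smul, Tb_contr h3 hv]
    · change iso B (x - (2 : ℂ) • xE μ (L2 G) D x) = iso B x - (2 : ℂ) • (pyU μ b _).p D (iso B x)
      rw [map_sub, map_smul, iso_apply, iso_apply, map_smul, Tb_xE hD]
  CC_W := by
    rintro c (⟨v, hv, rfl⟩ | ⟨D, hD, rfl⟩) k x
    · exact Vq_Wk v k x
    · change Wk μ k x - (2 : ℂ) • xE μ (L2 G) D (Wk μ k x) = Wk μ k (x - (2 : ℂ) • xE μ (L2 G) D x)
      rw [map_sub, map_smul, ← cl_xE' _ hD]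
  CC_WU := by
    rintro c (⟨v, hv, rfl⟩ | ⟨D, hD, rfl⟩) k x
    · exact sSU_XBU _ k x
    · change XBU _ k x - (2 : ℂ) • (pyU μ b _).p D (XBU _ k x) = XBU _ k (x - (2 : ℂ) • (pyU μ b _).p D x)
      rw [map_sub, map_smul, py_XBU hD]
  CC_E := by
    rintro c (⟨v, hv, rfl⟩ | ⟨D, hD, rfl⟩) f hf x
    · exact Mf_sSU _ x
    · change Mf μ _ _ x - (2 : ℂ) • (pyU μ b _).p D (Mf μ _ _ x) = Mf μ _ _ (x - (2 : ℂ) • (pyU μ b _).p D x)
      rw [map_sub, map_smul, py_Mf hD]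
  erg Y hW hC := by
    refine hE Y (fun D hD φ => ?_) (fun k φ => hW k φ) fun u hu φ => ?_
    · have h1 : Y (φ - (2 : ℂ) • xE μ (L2 G) D φ) = Y φ - (2 : ℂ) • xE μ (L2 G) D (Y φ) :=
        hC _ (Or.inr ⟨D, hD, rfl⟩) φ
      rw [map_sub, map_smul, sub_right_inj] at h1
      exact smul_right_injective _ (two_ne_zero : (2 : ℂ) ≠ 0) h1
    · exact hC _ (Or.inl ⟨u, hu, rfl⟩) φ
  V := (vgR μ a (jjR E)).comp (cen b).subtype
  VW v k x := Vq_Wk (v : G1) k x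
  VΦ v f hf x := by
    rw [adj_iso, adj_iso]
    exact (B.Ph_cen hpl (F.av f hf) v x).symm
  Vc x := by
    rw [continuous_iff_continuousAt]
    intro v
    exact (tendsto_contVec (contVec_vg h3 hK (jjR E) x) (v : G1)).comp (continuous_subtype_val.tendsto v)
  VCC := by
    rintro v c (⟨u, hu, rfl⟩ | ⟨D, hD, rfl⟩)
    · refine ⟨_, Or.inl ⟨(v : G1) * u * (v : G1)⁻¹, ctr_conj hu v, rfl⟩, fun x => ?_⟩
      change (vgR μ a (jjR E) (v : G1)) ((vgR μ a (jjR E) u) x) =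
        (vgR μ a (jjR E) ((v : G1) * u * (v : G1)⁻¹)) ((vgR μ a (jjR E) (v : G1)) x)
      change (vgR μ a (jjR E) (v : G1) * vgR μ a (jjR E) u) x =
        (vgR μ a (jjR E) ((v : G1) * u * (v : G1)⁻¹) * vgR μ a (jjR E) (v : G1)) x
      rw [← map_mul, ← map_mul, inv_mul_cancel_right]
    · have hD' : MeasurableSet ((fun x => (v : G1)⁻¹ • x) ⁻¹' D) := (measurable_const_smul _) hD
      refine ⟨_, Or.inr ⟨_, hD', rfl⟩, fun x => ?_⟩
      change Vq μ a E (v : G1) (x - (2 : ℂ) • xE μ (L2 G) D x) =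
        Vq μ a E (v : G1) x - (2 : ℂ) • xE μ (L2 G) _ (Vq μ a E (v : G1) x)
      rw [map_sub, map_smul, vg_xE a (jjR E) (v : G1) hD]
  nontriv := by
    refine ⟨cst μ (dl 1), 0, fun h => ?_⟩
    have h1 : ‖(cst μ (dl (1 : G)) : XL μ (L2 G))‖ = 0 := by rw [h, norm_zero]
    rw [LinearIsometry.norm_map, norm_dl] at h1
    exact one_ne_zero h1

/-- The boundary data over the Levi group of a direction. -/
noncomputable def bdDR (F : FrmR geo R pd) (B : BMap μ a E R pd b)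
    (h3 : Tendsto (fun g : G1 => μ {x | a.a g x ≠ 1}) (𝓝 1) (𝓝 0)) (hK : Kcont G1 μ) (hE : ErgU μ a E (Ctr b)) (hpl : PLf R pd)
    {F1 : Subgroup G1} {par : G1 → ℝ} {d : ℕ} (D : Dir G1 F1 par d) (hbF : ∀ n, b n ∈ F1) :
    BD geo G D.S' (XL μ (L2 G)) (XUa μ R) :=
  pullBD (bdR F B h3 hK hE hpl) (jcen D hbF) (continuous_jcen D hbF)

theorem bdDR_ir (F : FrmR geo R pd) (B : BMap μ a E R pd b)
    (h3 : Tendsto (fun g : G1 => μ {x | a.a g x ≠ 1}) (𝓝 1) (𝓝 0)) (hK : Kcont G1 μ) (hE : ErgU μ a E (Ctr b)) (hpl : PLf R pd)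
    {F1 : Subgroup G1} {par : G1 → ℝ} {d : ℕ} (D : Dir G1 F1 par d) (hbF : ∀ n, b n ∈ F1) :
    (bdDR F B h3 hK hE hpl D hbF).ir = F.ir := rfl

/-- Amenability of the action of `G` on `𝔾 / ker nb`. -/
def AmnR (F : FrmR geo R pd) : Prop :=
  ∀ (Q : Finset G) (ε : ℝ), 0 < ε → ∃ (S : Finset G) (p : G → 𝔾 → ℝ),
    (∀ t, Continuous (p t)) ∧ (∀ t g, 0 ≤ p t g) ∧ (∀ t, t ∉ S → ∀ g, p t g = 0) ∧
    (∀ g, ∑ t ∈ S, p t g ^ 2 = 1) ∧ (∀ t g (q : geo.Q), geo.nb q = 1 → p t (g * q) = p t g) ∧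
    ∀ h ∈ Q, ∀ g, ∀ S' : Finset G, ∑ t ∈ S', (p t (F.ir h * g) - p (h⁻¹ * t) g) ^ 2 ≤ ε ^ 2

variable [IsTopologicalGroup 𝔾] [IsTopologicalGroup 𝕊] [MeasurableSpace 𝕊] [BorelSpace 𝕊] [SecondCountableTopology 𝕊]
  [LocallyCompactSpace 𝕊] [T2Space 𝕊] (ν : Measure 𝕊) [ν.IsHaarMeasure] [ν.IsMulRightInvariant] [LocallyCompactSpace 𝔾] [T2Space 𝔾]

/-- **Ping-pong operators of the boundary data.** -/
theorem hppR {Γ : Subgroup G1} [Countable Γ] {a : Cocy G1 X Γ} {E : Emb Γ G}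
    (hQ : IsClosed (geo.Q : Set 𝔾)) (hKG : IsCompact (𝕂 : Set 𝕊)) (ho : IsOpenMap geo.nb) (F : FrmR geo R pd) (hA : AmnR F)
    (B : BMap μ a E R pd b)
    (h3 : Tendsto (fun g : G1 => μ {x | a.a g x ≠ 1}) (𝓝 1) (𝓝 0)) (hK : Kcont G1 μ) (hE : ErgU μ a E (Ctr b)) (hpl : PLf R pd)
    {F1 : Subgroup G1} {par : G1 → ℝ} {d : ℕ} (D : Dir G1 F1 par d) (hbF : ∀ n, b n ∈ F1)
    (hbp : Tendsto (fun n => par (b n)) (hyperfilter ℕ : Filter ℕ) atTop)
    (σ : X → G1) (hσ : ∀ B : Set G1, MeasurableSet[borel G1] B → MeasurableSet (σ ⁻¹' B))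
    (hσa : ∀ (g : G1) (x : X), g * σ x = σ (g • x) * (a.a g x : G1)) :
    ∀ t ∈ D.fam.Sg, ∀ Nn : Subgroup D.S', Nn.Normal → t ∈ Nn → ∀ k : ℕ, ∃ g : Fin k → D.S', (∀ i, g i ∈ Nn) ∧
      Nonempty (PP (levOf ν (bdDR F B h3 hK hE hpl D hbF) hQ hKG) D.mult k g) := by
  classical
  intro t ht Nn hN htN k
  obtain ⟨g, W, hg, hW, h1, h2⟩ := D.pp t ht k
  refine ⟨g, fun i => (Subgroup.normalClosure_le_normal (Set.singleton_subset_iff.2 htN)) (hg i), ?_⟩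
  obtain ⟨Y, J, hJV, hJE⟩ := exists_XJ (μ := μ) (jjR E) (dense_jjR E) a
  -- the map to the boundary
  let κ : X → Γ → D.Ω := fun x l => D.κ (σ x * (l : G1))
  have hκ : ∀ l, Measurable fun x => κ x l := by
    intro l A hA
    have h4 : MeasurableSet[borel G1] ((fun g : G1 => g * (l : G1)) ⁻¹' (D.κ ⁻¹' A)) := by
      have h5 : Measurable[borel G1, borel G1] (fun g : G1 => g * (l : G1)) := (continuous_mul_const (l : G1)).borel_measurable
      exact h5 (D.κm A hA)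
    exact hσ _ h4
  have hκS : ∀ (z : D.S') x l, κ (D.ι z • x) (a.a (D.ι z) x * l) = z • κ x l := by
    intro z x l
    change D.κ (σ (D.ι z • x) * ((a.a (D.ι z) x * l : Γ) : G1)) = z • D.κ (σ x * (l : G1))
    rw [Subgroup.coe_mul, ← mul_assoc, ← hσa, mul_assoc, D.κs]
  have hκq : ∀ u ∈ Ctr b, ∀ x l, κ (u • x) (a.a u x * l) = κ x l := by
    intro u hu x l
    change D.κ (σ (u • x) * ((a.a u x * l : Γ) : G1)) = D.κ (σ x * (l : G1))
    rw [Subgroup.coe_mul, ← mul_assoc, ← hσa, mul_assoc]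
    exact D.κq b (hyperfilter ℕ : Filter ℕ) hbF hbp u hu _
  have O : Obs D.S' D.Ω (XL μ (L2 Γ)) ((vrep μ a).comp D.ι)
      (c0X μ a E R b '' CCs μ a E R b) := by
    refine obsX μ a D.ι κ hκ hκS _ ?_
    rintro _ ⟨c, hc, rfl⟩
    rcases c0X_spec hc with ⟨u, hu, -, h4⟩ | ⟨A, hA, -, h4⟩
    · exact Or.inl ⟨u, hκq u hu, h4⟩
    · exact Or.inr ⟨A, hA, h4⟩
  exact exists_PP ν (bdDR F B h3 hK hE hpl D hbF) hQ hKG ho hA
    ((vrep μ a).comp D.ι) (c0X μ a E R b) J (fun z x y => hJV (D.ι z) x y) (by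
      intro c hc x y
      rcases c0X_spec hc with ⟨u, hu, h4, h5⟩ | ⟨A, hA, h4, h5⟩
      · rw [h4, h5, hJV]
      · rw [h4, h5, map_sub, map_smul, ← hJE A hA]
        rfl) O g W hW D.mult (fun ω => card_le_of_ncard _ (h1 ω)) (fun ω => card_le_of_ncard _ (h2 ω))

/-- **The contradiction.** -/
theorem contraR {Γ : Subgroup G1} [Countable Γ] {a : Cocy G1 X Γ} {E : Emb Γ G}
    (hQ : IsClosed (geo.Q : Set 𝔾)) (hKG : IsCompact (𝕂 : Set 𝕊)) (ho : IsOpenMap geo.nb) (F : FrmR geo R pd) (hA : AmnR F)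
    (B : BMap μ a E R pd b)
    (h3 : Tendsto (fun g : G1 => μ {x | a.a g x ≠ 1}) (𝓝 1) (𝓝 0)) (hK : Kcont G1 μ) (hE : ErgU μ a E (Ctr b)) (hpl : PLf R pd)
    {F1 : Subgroup G1} {par : G1 → ℝ} {d : ℕ} (D : Dir G1 F1 par d) (hbF : ∀ n, b n ∈ F1)
    (hbp : Tendsto (fun n => par (b n)) (hyperfilter ℕ : Filter ℕ) atTop)
    (σ : X → G1) (hσ : ∀ B : Set G1, MeasurableSet[borel G1] B → MeasurableSet (σ ⁻¹' B))
    (hσa : ∀ (g : G1) (x : X), g * σ x = σ (g • x) * (a.a g x : G1))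
    (z : Siz 𝕊 ν) (hd : z.d < d) : False :=
  Pool.Agent.Helper43.TZ.main (levOf ν (bdDR F B h3 hK hE hpl D hbF) hQ hKG) z D.fam (by rwa [D.famd]) D.mult
    (hppR ν hQ hKG ho F hA B h3 hK hE hpl D hbF hbp σ hσ hσa)

end Pool.Agent.Helper78.FQ
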