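import Pool.Agent.Helper35.TZ.Conn
import Pool.Agent.Helper96.SA.Pol

/-!
# Project FQ (MP_0f6f3f_an), layer TZ, abstract target: definitions

`Nd θ b`: an element `H` of the Lie algebra `L` with `θ H = -H`, and the Cartan basis `b` consists of eigenvectors of `ad H`: `[H, b i] = w i • b i`. (In the application: `H = H_j`, the fundamental coweight of the node `j`.)
`n.Q`: the parabolic subgroup of the `g` in `autC b` with `g_(ik) = 0` if `w k < w i`. `n.K`: the orthogonal matrices in `autC b`. `n.D g`: the block diagonal part of the matrix `g`. `n.s`: the subalgebra of `L` generated by the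
`x` with `θ x = -x`, `[H, x] = 0`, `κ(H, x) = 0` (in the application: the subalgebra generated by the root spaces of `± α_i`, `i ≠ j`). `n.a t = exp(t ad H)`.
-/

set_option autoImplicit false

open Filter Topology Matrix

namespace Pool.Agent.Helper78.FQ

open Pool.Agent.Helper96.SA Pool.Agent.Helper35.TZ

variable {L : Type} [LieRing L] [LieAlgebra ℝ L] {N : ℕ} {θ : L ≃ₗ⁅ℝ⁆ L} {b : Module.Basis (Fin N) ℝ L}

/-- A direction. -/
structure Nd (θ : L ≃ₗ⁅ℝ⁆ L) (b : Module.Basis (Fin N) ℝ L) where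
  h : CartanBasis θ b
  /-- the direction -/
  H : L
  θH : θ H = -H
  /-- the eigenvalues -/
  w : Fin N → ℝ
  Hb : ∀ i, ⁅H, b i⁆ = w i • b i

namespace Nd

variable (n : Nd θ b)

/-- The matrix of `g` in `autC b`. -/
def mt (g : autC b) : Mat N := ((g : GL (Fin N) ℝ) : Mat N)

theorem mt_mul (g g' : autC b) : mt (g * g') = mt g * mt g' := rfl

theorem mt_one : mt (1 : autC b) = 1 := rfl

theorem mt_inj {g g' : autC b} (h : mt g = mt g') : g = g' := Subtype.ext (Units.ext h)

theorem mt_mul_inv (g : autC b) : mt g * mt g⁻¹ = 1 := by rw [← mt_mul, mul_inv_cancel, mt_one]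

theorem mt_inv_mul (g : autC b) : mt g⁻¹ * mt g = 1 := by rw [← mt_mul, inv_mul_cancel, mt_one]

theorem continuous_mt : Continuous (mt : autC b → Mat N) := Units.continuous_val.comp continuous_subtype_val

/-- The block diagonal part. -/
noncomputable def D (A : Mat N) : Mat N := Matrix.of fun i j => if n.w i = n.w j then A i j else 0

theorem D_apply (A : Mat N) (i j : Fin N) : n.D A i j = if n.w i = n.w j then A i j else 0 := rfl

/-- Block triangular. -/
def Tri (A : Mat N) : Prop := ∀ i k, n.w k < n.w i → A i k = 0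

variable {n} in
theorem Tri.mul {A B : Mat N} (hA : n.Tri A) (hB : n.Tri B) : n.Tri (A * B) := by
  intro i k hik
  rw [Matrix.mul_apply]
  refine Finset.sum_eq_zero fun j _ => ?_
  by_cases h1 : n.w j < n.w i
  · rw [hA i j h1, zero_mul]
  · rw [hB j k (lt_of_lt_of_le hik (not_lt.1 h1)), mul_zero]

theorem tri_iff {A : Mat N} : n.Tri A ↔ A.BlockTriangular fun i => n.w i := by
  constructor
  · intro h i j hij
    exact h i j hij
  · intro h i j hij
    exact h hij

variable {n} in
theorem Tri.inv {A B : Mat N} (hA : n.Tri A) (h : A * B = 1) : n.Tri B := by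
  have h1 : A⁻¹ = B := Matrix.inv_eq_right_inv h
  have : Invertible A := invertibleOfRightInverse A B h
  rw [← h1]
  exact n.tri_iff.2 (Matrix.blockTriangular_inv_of_blockTriangular (n.tri_iff.1 hA))

/-- The parabolic subgroup. -/
def Q : Subgroup (autC b) where
  carrier := {g | n.Tri (mt g)}
  mul_mem' {g g'} hg hg' := Tri.mul hg hg'
  one_mem' i k hik := by
    rw [mt_one, Matrix.one_apply_ne]
    rintro rfl
    exact lt_irrefl _ hik
  inv_mem' {g} hg := Tri.inv hg (mt_mul_inv g)

theorem mem_Q {g : autC b} : g ∈ n.Q ↔ ∀ i k, n.w k < n.w i → mt g i k = 0 := Iff.rfl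

/-- The compact group. -/
def K (b : Module.Basis (Fin N) ℝ L) : Subgroup (autC b) where
  carrier := {g | (mt g)ᵀ * mt g = 1}
  mul_mem' {g g'} hg hg' := by
    change (mt (g * g'))ᵀ * mt (g * g') = 1
    rw [mt_mul, transpose_mul]
    calc (mt g')ᵀ * (mt g)ᵀ * (mt g * mt g') = (mt g')ᵀ * ((mt g)ᵀ * mt g) * mt g' := by simp only [Matrix.mul_assoc]
      _ = 1 := by rw [show (mt g)ᵀ * mt g = 1 from hg, Matrix.mul_one]; exact hg'
  one_mem' := by
    change (mt (1 : autC b))ᵀ * mt (1 : autC b) = 1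
    rw [mt_one, transpose_one, Matrix.one_mul]
  inv_mem' {g} hg := by
    have h1 : (mt g)ᵀ * mt g = 1 := hg
    have h2 : mt g⁻¹ = (mt g)ᵀ := by
      calc mt g⁻¹ = (mt g)ᵀ * mt g * mt g⁻¹ := by rw [h1, Matrix.one_mul]
        _ = _ := by rw [Matrix.mul_assoc, mt_mul_inv, Matrix.mul_one]
    change (mt g⁻¹)ᵀ * mt g⁻¹ = 1
    rw [h2, transpose_transpose, ← h2, mt_mul_inv]

theorem mem_K {g : autC b} : g ∈ K b ↔ (mt g)ᵀ * mt g = 1 := Iff.rfl

theorem mt_inv_K {g : autC b} (h : g ∈ K b) : mt g⁻¹ = (mt g)ᵀ := by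
  have h1 : (mt g)ᵀ * mt g = 1 := h
  calc mt g⁻¹ = (mt g)ᵀ * mt g * mt g⁻¹ := by rw [h1, Matrix.one_mul]
    _ = _ := by rw [Matrix.mul_assoc, mt_mul_inv, Matrix.mul_one]

/-- The semisimple part of the centralizer of `H`. -/
def s : LieSubalgebra ℝ L := LieSubalgebra.lieSpan ℝ L {x | θ x = -x ∧ ⁅n.H, x⁆ = 0 ∧ killingForm ℝ L n.H x = 0}

/-- `exp(t ad H)`. -/
noncomputable def a (t : ℝ) : GL (Fin N) ℝ := ex (t • LinearMap.toMatrix b b (LieAlgebra.ad ℝ L n.H))

theorem toMatrix_H : LinearMap.toMatrix b b (LieAlgebra.ad ℝ L n.H) = diagonal n.w := by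
  ext i j
  rw [LinearMap.toMatrix_apply, LieAlgebra.ad_apply, n.Hb, map_smul, Finsupp.smul_apply, Module.Basis.repr_self, Finsupp.single_apply,
    diagonal_apply, smul_eq_mul]
  by_cases hij : j = i
  · rw [if_pos hij, if_pos hij.symm, hij, mul_one]
  · rw [if_neg hij, if_neg (Ne.symm hij), mul_zero]

end Nd

end Pool.Agent.Helper78.FQ
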