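import Pool.Agent.Helper78.FQ.Gd

/-!
# Project FQ (MP_0f6f3f_an), layer TZ: frames from the group data

`Cp Δ j Y`: the compact group of the group data consists of orthogonal matrices, and the flat of the node `j` is `exp(- t Y)`. `frGD`: the frames at the node `j` for a region where the gaps different from `j` are bounded and the gap `j`
tends to infinity, and for a pseudometric of positions finer than the one of the lines `rho j (kR γ) 0`.
-/

set_option autoImplicit false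
set_option linter.unusedSectionVars false

open Filter Topology Matrix Pointwise

namespace Pool.Agent.Helper78.FQ

open Pool.Agent.Helper96.SA Pool.Agent.Helper90.RK Pool.Agent.Helper84.NI
open Pool.Agent.Helper84 Pool.Agent.Helper84.GN Pool.Agent.Helper84.GN.S3
open Pool.Agent.Helper35.FP Pool.Agent.Helper35.TZ Pool.Agent.Helper2.BC
open Pool.Agent.Helper84.GDL (GD)
open Pool.Agent.Helper46.FQ (cj Pg Dh mem_Pg_iff Qg toPg toPg_coe)

variable {N : ℕ} {G0 : Subgroup (GL (Fin N) ℝ)}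

/-- Compatibility of the group data with the matrix `Y` at the node `j`. -/
structure Cp {ι : Type} [Fintype ι] [DecidableEq ι] (Δ : GD G0 ι) (j : ι) (Y : Mat N) : Prop where
  orth : ∀ k ∈ Δ.K, (mx k)ᵀ * mx k = 1
  ea : ∀ t : ℝ, (Δ.ea (Pi.single j t) : GL (Fin N) ℝ) = (ex (t • Y))⁻¹

/-- Boundedness of the conjugates implies block triangularity. -/
theorem tr_of_bdd {Y : Mat N} (D : Dg Y) {k : GL (Fin N) ℝ} {B : Set (GL (Fin N) ℝ)} (hB : IsCompact B)
    (h : ∀ t : ℝ, 0 ≤ t → (ex (t • Y))⁻¹ * k * ex (t • Y) ∈ B) : Tr D.h (D.co (k : Mat N)) := by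
  intro i j hij
  by_contra hne
  have hc : Continuous fun g : GL (Fin N) ℝ => |D.co (g : Mat N) i j| :=
    continuous_abs.comp ((D.continuous_co.comp Units.continuous_val).matrix_elem i j)
  obtain ⟨C, hC⟩ := (hB.image hc).bddAbove
  have h1 : ∀ t : ℝ, 0 ≤ t → Real.exp (t * (D.h j - D.h i)) * |D.co (k : Mat N) i j| ≤ C := by
    intro t ht
    have h2 := hC ⟨_, h t ht, rfl⟩
    have h3 := Pool.Agent.Helper46.FQ.cj_coe D.UU D.UU' D.spec t k i j
    have h4 : D.co (((ex (t • Y))⁻¹ * k * ex (t • Y) : GL (Fin N) ℝ) : Mat N) i j = Real.exp (t * (D.h j - D.h i)) * D.co (k : Mat N) i j := h3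
    change |D.co (((ex (t • Y))⁻¹ * k * ex (t • Y) : GL (Fin N) ℝ) : Mat N) i j| ≤ C at h2
    rw [h4, abs_mul, Real.abs_exp] at h2
    exact h2
  have h2 : Tendsto (fun t : ℝ => Real.exp (t * (D.h j - D.h i)) * |D.co (k : Mat N) i j|) atTop atTop := by
    refine Tendsto.atTop_mul_const (abs_pos.2 hne) ?_
    exact Real.tendsto_exp_atTop.comp (tendsto_id.atTop_mul_const (by linarith))
  obtain ⟨t, ht, ht'⟩ := ((h2.eventually (eventually_gt_atTop C)).and (eventually_ge_atTop 0)).exists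
  exact absurd (h1 t ht') (not_le.2 ht)

section Frame

variable {ι : Type} [Fintype ι] [DecidableEq ι] {Δ : GD G0 ι} {j : ι} {Y : Mat N}

/-- Elements of the flat commute with `Y`. -/
theorem Cp.comm (c : Cp Δ j Y) (D : Dg Y) (v : ι → ℝ) : mx (Δ.ea v) * Y = Y * mx (Δ.ea v) := by
  rw [D.comm_iff]
  intro i k hik
  have h1 : Δ.ea v * Δ.ea (Pi.single j (-1)) = Δ.ea (Pi.single j (-1)) * Δ.ea v := Δ.ea_comm _ _
  have h2 := congrArg (fun g : G0 => D.co (mx g) i k) h1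
  have h3 : mx (Δ.ea (Pi.single j (-1))) = ((ex ((1 : ℝ) • Y) : GL (Fin N) ℝ) : Mat N) := by
    change ((Δ.ea (Pi.single j (-1)) : GL (Fin N) ℝ) : Mat N) = _
    rw [c.ea, ← ex_neg, ← neg_smul, neg_neg]
  simp only [mx_mul, D.co_mul, h3, D.co_ex, one_mul] at h2
  rw [mul_diagonal, diagonal_mul] at h2
  have h4 : (Real.exp (D.h i) - Real.exp (D.h k)) * D.co (mx (Δ.ea v)) i k = 0 := by linarith
  exact (mul_eq_zero.1 h4).resolve_left fun h => hik (Real.exp_injective (sub_eq_zero.1 h))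

/-- **The frames at the node `j`.** -/
noncomputable def frGD [IsTopologicalGroup G0] (c : Cp Δ j Y) (D : Dg Y) {G : Type} [Group G] {R : Reg G} {pd : PD G} (ir : G →* G0)
    (hW : ∀ n, ∃ C : ℝ, ∀ γ ∈ R.W n, ∀ i, i ≠ j → Δ.mu (ir γ) i ≤ C)
    (hF : ∀ n, Tendsto (fun γ => Δ.mu (ir γ) j) (R.F n) atTop)
    (hpd : ∀ (l : Ultrafilter ℕ) (x y : ℕ → G), Tendsto (fun n => pd.d (x n) (y n)) l (𝓝 0) → ∀ i, i ≠ 0 →
      Tendsto (fun n => Δ.rho j (Δ.kR (ir (x n)) * (Δ.kR (ir (y n)))⁻¹) 0 i) l (𝓝 0)) : FrD G0 D R pd where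
  ir := ir
  kL γ := Δ.kL (ir γ)
  kR γ := Δ.kR (ir γ)
  M γ := Δ.ea (Δ.mu (ir γ) - Pi.single j (Δ.mu (ir γ) j))
  t γ := Δ.mu (ir γ) j
  oL γ := c.orth _ (Δ.kL_mem _)
  oR γ := c.orth _ (Δ.kR_mem _)
  MH γ := c.comm D _
  dec γ := by
    have h1 : Δ.ea (Δ.mu (ir γ) - Pi.single j (Δ.mu (ir γ) j)) * Δ.ea (Pi.single j (Δ.mu (ir γ) j)) = Δ.ea (Δ.mu (ir γ)) := by
      rw [← Δ.ea_add, sub_add_cancel]
    have h2 : ir γ = Δ.kL (ir γ) * (Δ.ea (Δ.mu (ir γ) - Pi.single j (Δ.mu (ir γ) j)) * Δ.ea (Pi.single j (Δ.mu (ir γ) j))) * Δ.kR (ir γ) := by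
      rw [h1]
      exact Δ.kak (ir γ)
    have h3 := congrArg (Subtype.val : G0 → GL (Fin N) ℝ) h2
    rw [h3]
    simp only [Subgroup.coe_mul, c.ea, mul_assoc]
  Mb n := by
    obtain ⟨C, hC⟩ := hW n
    have h1 : IsCompact (Set.pi Set.univ fun _ : ι => Set.Icc (0 : ℝ) (max C 0)) := isCompact_univ_pi fun _ => isCompact_Icc
    refine ⟨Δ.ea '' _, h1.image Δ.ea_cont, fun γ hγ => ⟨_, fun i _ => ?_, rfl⟩⟩
    by_cases hi : i = j
    · subst hi
      rw [Pi.sub_apply, Pi.single_eq_same, sub_self]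
      exact ⟨le_rfl, le_max_right _ _⟩
    · rw [Pi.sub_apply, Pi.single_eq_of_ne hi, sub_zero]
      exact ⟨Δ.mu_nonneg _ _, (hC γ hγ i hi).trans (le_max_left _ _)⟩
  tt n := hF n
  tb k n := by
    obtain ⟨C, -, hC⟩ := Δ.mu_shift (B := {1, ir k}) (Set.toFinite _).isCompact
    refine ⟨C, Eventually.of_forall fun γ => ?_⟩
    have h1 := hC 1 (by simp) (ir k) (by simp) (ir γ) j
    rwa [one_mul, ← map_mul] at h1
  pos l x y k hd hk := by
    have h0 : ∀ i, i ≠ 0 → Δ.rho j k 0 i = 0 := by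
      intro i hi
      have h1 : Tendsto (fun n => Δ.rho j (Δ.kR (ir (x n)) * (Δ.kR (ir (y n)))⁻¹) 0 i) l (𝓝 (Δ.rho j k 0 i)) :=
        (((Δ.rho_cont j).matrix_elem 0 i).tendsto k).comp hk
      exact tendsto_nhds_unique h1 (hpd l x y hd i hi)
    obtain ⟨B', hB', h⟩ := Δ.par' j {k} isCompact_singleton
    have h1 := h k rfl h0
    refine tr_of_bdd D (hB'.image continuous_subtype_val) fun t ht => ⟨_, h1 t ht, ?_⟩
    rw [Subgroup.coe_mul, Subgroup.coe_mul, c.ea, c.ea, neg_smul, ex_neg, inv_inv]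

end Frame

end Pool.Agent.Helper78.FQ
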