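import Pool.Agent.Helper78.FQ.Gap
import Pool.Agent.Helper78.FQ.Shape
import Pool.Agent.Helper84.GD.PD
import Pool.Agent.Helper35.TZ.Fin2

/-!
# Project FQ (MP_0f6f3f_an), layer TZ: the Levi group of the target at the node `j`

For group data `Δ` of `Aut(L)⁰` at the node `j`: `frT` the frames, `amnT` amenability, `levT` the abstract data over the block group `SS`, `hppT` the ping-pong operators, `dim_le` the inequality of the dimensions, `hypT` the law of the gaps.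
-/

set_option autoImplicit false
set_option linter.unusedSectionVars false

open Filter Topology Matrix Pointwise MeasureTheory

namespace Pool.Agent.Helper78.FQ

open Pool.Agent.Helper96.SA Pool.Agent.Helper96.TO Pool.Agent.Helper69.SLN
open Pool.Agent.Helper84 Pool.Agent.Helper84.GN Pool.Agent.Helper84.GN.S3 Pool.Agent.Helper84.GN.S3.X
open Pool.Agent.Helper84.NI Pool.Agent.Helper84.GVN Pool.Agent.Helper90.RK Pool.Agent.Helper9
open Pool.Agent.Helper96.RK Pool.Agent.Helper66.FR Pool.Agent.Helper84.FR Pool.Agent.Helper55.FR Pool.Agent.Helper78.BM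
open Pool.Agent.Helper35.FP Pool.Agent.Helper55.FP Pool.Agent.Helper78.BI Pool.Agent.Helper55.TZ
open Pool.Agent.Helper35.TZ Pool.Agent.Helper2.BC
open Pool.Agent.Helper43.TZ (PP Dir Siz Lev)
open Pool.Agent.Helper9.FQ (mass)
open Pool.Agent.Helper84.GDL (GD)
open Pool.Agent.Helper46.FQ (Qg toPg geoS geoS_Q geoS_nb geoS_r nbS isClosed_Qg rt_mul_left rt_Q nbS_KS nbS_of_commute nbS_secM secM Y_symm Y_mem isOpenMap_nbS)
open Pool.Agent.Helper87.FQ (Mh mem_Mh mem_Mh_iff lsub SS rsS ti ti_eq_self selfAdj_autC isCompact_KS exists_haarS exists_sizS)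

section Pd

open scoped Matrix.Norms.L2Operator

variable {𝔾 : Type} [Group 𝔾] [TopologicalSpace 𝔾] {ι : Type} [Fintype ι] [DecidableEq ι] (Δ : GD 𝔾 ι)

theorem pos_le (j : ι) (g g' : 𝔾) {i : Fin (Δ.d j + 1)} (hi : i ≠ 0) :
    |Δ.rho j (Δ.kR g * (Δ.kR g')⁻¹) 0 i| ≤ ‖Δ.pj j g - Δ.pj j g'‖ := by
  obtain ⟨e, he⟩ : ∃ e : Matrix (Fin (Δ.d j + 1)) Unit ℝ, e = fun k _ => if k = i then 1 else 0 := ⟨_, rfl⟩
  have hen : ‖e‖ = 1 := by
    have h1 := Pool.Agent.Helper84.GDL.norm_gram e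
    rw [Pool.Agent.Helper84.GDL.norm_unit, Matrix.mul_apply] at h1
    have h2 : ∑ k, eᵀ () k * e k () = 1 := by
      rw [he]
      simp [Matrix.transpose_apply]
    rw [h2, abs_one] at h1
    have h3 := norm_nonneg e
    nlinarith
  obtain ⟨c, hc⟩ : ∃ c : Matrix (Fin (Δ.d j + 1)) Unit ℝ, c = (Δ.rho j (Δ.kR g'))ᵀ * e := ⟨_, rfl⟩
  have hcn : ‖c‖ = 1 := by
    rw [hc, Δ.rho_T_K (Δ.kR_mem g'), Δ.norm_col (Δ.K.inv_mem (Δ.kR_mem g')), hen]
  have h1 : (Δ.X j g')ᵀ * c = 0 := by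
    rw [hc]
    unfold GD.X
    rw [Matrix.transpose_mul, Matrix.transpose_transpose, Matrix.mul_assoc, ← Matrix.mul_assoc (Δ.rho j (Δ.kR g')),
      Δ.orth_T (Δ.kR_mem g'), Matrix.one_mul]
    ext x y
    rw [Matrix.mul_apply, Matrix.zero_apply]
    refine Finset.sum_eq_zero fun k _ => ?_
    rw [Matrix.transpose_apply, he]
    unfold GD.e0
    by_cases hk : k = 0
    · rw [if_pos hk, one_mul]
      exact if_neg fun h => hi (h.symm.trans hk)
    · rw [if_neg hk, zero_mul]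
  have h2 : ((Δ.X j g)ᵀ * c) () () = Δ.rho j (Δ.kR g * (Δ.kR g')⁻¹) 0 i := by
    rw [hc]
    unfold GD.X
    rw [Matrix.transpose_mul, Matrix.transpose_transpose, Matrix.mul_assoc, ← Matrix.mul_assoc (Δ.rho j (Δ.kR g)),
      Δ.rho_T_K (Δ.kR_mem g'), ← map_mul, Matrix.mul_apply, Finset.sum_eq_single 0]
    · rw [Matrix.transpose_apply]
      unfold GD.e0
      rw [if_pos rfl, one_mul, Matrix.mul_apply, Finset.sum_eq_single i]
      · rw [he]
        simp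
      · intro k _ hk
        rw [he]
        simp [hk]
      · intro h
        exact absurd (Finset.mem_univ _) h
    · intro k _ hk
      rw [Matrix.transpose_apply]
      unfold GD.e0
      rw [if_neg hk, zero_mul]
    · intro h
      exact absurd (Finset.mem_univ _) h
  have h3 : (Δ.pj j g - Δ.pj j g') * c = (Δ.rho j (Δ.kR g * (Δ.kR g')⁻¹) 0 i) • Δ.X j g := by
    unfold GD.pj
    rw [Matrix.sub_mul, Matrix.mul_assoc, Matrix.mul_assoc, h1, Matrix.mul_zero, sub_zero, Pool.Agent.Helper84.GDL.mul_unit, h2]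
  have h4 : ‖(Δ.pj j g - Δ.pj j g') * c‖ ≤ ‖Δ.pj j g - Δ.pj j g'‖ := by
    refine (Matrix.l2_opNorm_mul _ _).trans ?_
    rw [hcn, mul_one]
  rwa [h3, norm_smul, Δ.norm_X, mul_one, Real.norm_eq_abs] at h4

end Pd

variable {L : Type} [LieRing L] [LieAlgebra ℝ L] {N : ℕ} {θ : L ≃ₗ⁅ℝ⁆ L} {b : Module.Basis (Fin N) ℝ L} {A : Submodule ℝ L}
  {ι : Type} [Fintype ι] [DecidableEq ι] {Δ : GD (autC b) ι} {j : ι} {H : A}
  (h : CartanBasis θ b) (hA : MaxFlat θ A) (c : Cq Δ j H)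

instance locallyCompact_autC (b : Module.Basis (Fin N) ℝ L) : LocallyCompactSpace (autC b) := (lcs_autC b).1

include h in
theorem isClosed_autC : IsClosed (autC b : Set (GL (Fin N) ℝ)) := (selfAdj_autC h).closed

/-- A diagonalisation of `- ad H` with increasing eigenvalues. -/
noncomputable def dgT : Dg ((-1 : ℝ) • TT_to b (H : L)) := (Dg.exists_mono (Y_symm h hA H rfl)).choose

theorem mono_dgT : Monotone (dgT h hA (H := H)).h := (Dg.exists_mono (Y_symm h hA H rfl)).choose_spec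

/-- The geometry. -/
noncomputable abbrev geoT : Geo (autC b) (SS h hA H) (Pool.Agent.Helper87.FQ.KS h hA H) :=
  geoS h hA H (Y := (-1 : ℝ) • TT_to b (H : L)) (neg_ne_zero.2 one_ne_zero) rfl

variable {G : Type} [Group G] (ir : G →* autC b) {R : Reg G}
  (hW : ∀ n, ∃ C : ℝ, ∀ γ ∈ R.W n, ∀ i, i ≠ j → Δ.mu (ir γ) i ≤ C)
  (hF : ∀ n, Tendsto (fun γ => Δ.mu (ir γ) j) (R.F n) atTop)

/-- The Cartan decomposition at the node `j`. -/
noncomputable def fdT : FrD (autC b) (dgT h hA (H := H)) R (Δ.pdOf j ir) :=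
  frGD c.cp _ ir hW hF fun l x y hd i hi => squeeze_zero_norm (fun n => by
    rw [Real.norm_eq_abs]
    exact pos_le Δ j (ir (x n)) (ir (y n)) hi) hd

/-- **The frames at the node `j`.** -/
noncomputable def frT : FrmR (geoT h hA (H := H)) R (Δ.pdOf j ir) :=
  (fdT h hA c ir hW hF).frm (isClosed_autC h) (geoT h hA) (mem_Q_iff h hA H _ rfl _) (nb_mem_K h hA H _ rfl _)

theorem frT_ir : (frT h hA c ir hW hF).ir = ir := rfl

theorem frT_gf (γ : G) : (frT h hA c ir hW hF).gf γ =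
    (Δ.kR (ir γ))⁻¹ * (Δ.ea (Δ.mu (ir γ) - Pi.single j (Δ.mu (ir γ) j)))⁻¹ := rfl

theorem isClosed_QT : IsClosed ((geoT h hA (H := H)).Q : Set (autC b)) := isClosed_Qg (autC b) (Y_symm h hA H rfl)

/-- **Amenability.** -/
theorem amnT (hir : ∀ B : Set (autC b), IsCompact B → (ir ⁻¹' B).Finite)
    (hH : ∀ x : A, (∀ φ ∈ rootsL A, φ H = 0 → φ x = 0) → ∃ c : ℝ, x = c • H) : AmnR (frT h hA c ir hW hF) :=
  amnR (dgT h hA) (geoT h hA) (isClosed_autC h) (isClosed_QT h hA) (mono_dgT h hA) (mem_Q_iff h hA H _ rfl _) (nb_ker h hA H _ rfl _ hH) _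
    (phR (dgT h hA (H := H)) (isClosed_autC h) (fun g => abs_det_autG h (autC_le b g.2)) ir hir) fun _ => rfl

/-- The shape of the frames. -/
theorem shape (γ : G) : ∃ k ∈ Pool.Agent.Helper87.FQ.KS h hA H,
    ((geoT h hA (H := H)).nb ((geoT h hA (H := H)).r ((frT h hA c ir hW hF).gf γ)))⁻¹ =
      rsS h hA H (eaM h hA c (Δ.mu (ir γ) - Pi.single j (Δ.mu (ir γ) j))) * k := by
  obtain ⟨v, hv⟩ : ∃ v, v = Δ.mu (ir γ) - Pi.single j (Δ.mu (ir γ) j) := ⟨_, rfl⟩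
  rw [frT_gf, ← hv, geoS_r, geoS_nb]
  have h1 : (Δ.kR (ir γ))⁻¹ ∈ Pool.Agent.Helper46.FQ.KS (autC b) := (c.orth _).1 (Δ.K.inv_mem (Δ.kR_mem _))
  rw [rt_mul_left (selfAdj_autC h) (Y_symm h hA H rfl) (Y_mem H rfl) h1]
  -- the element of the parabolic group
  obtain ⟨q, hq⟩ : ∃ q : Qg (autC b) ((-1 : ℝ) • TT_to b (H : L)), q = secM h H (neg_ne_zero.2 one_ne_zero) rfl (eaM h hA c v)⁻¹ := ⟨_, rfl⟩
  have hq' : (q : autC b) = (Δ.ea v)⁻¹ := by
    rw [hq]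
    rfl
  obtain ⟨k, hk, hkq⟩ := rt_Q (selfAdj_autC h) (Y_symm h hA H rfl) (Y_mem H rfl) q
  rw [← hq']
  refine ⟨nbS h hA H (neg_ne_zero.2 one_ne_zero) rfl k, nbS_KS h hA H _ rfl k hk, ?_⟩
  have h2 : nbS h hA H (neg_ne_zero.2 one_ne_zero) rfl q = (rsS h hA H (eaM h hA c v))⁻¹ := by
    rw [hq, nbS_secM, map_inv]
  have h3 := congrArg (nbS h hA H (neg_ne_zero.2 one_ne_zero) rfl) hkq
  rw [map_mul, h2] at h3
  have h4 : rsS h hA H (eaM h hA c v) = (nbS h hA H (neg_ne_zero.2 one_ne_zero) rfl (Pool.Agent.Helper46.FQ.rt (selfAdj_autC h)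
      (Y_symm h hA H rfl) (Y_mem H rfl) (q : autC b)))⁻¹ * (nbS h hA H (neg_ne_zero.2 one_ne_zero) rfl k)⁻¹ := by
    rw [← _root_.mul_inv_rev, ← h3, inv_inv]
  rw [h4, inv_mul_cancel_right]
  rfl

/-- The gaps of the frames. -/
theorem shape_gp (hH : ∀ x : A, (∀ φ ∈ rootsL A, φ H = 0 → φ x = 0) → ∃ c : ℝ, x = c • H) : ∃ C : ℝ, 0 ≤ C ∧ ∀ (γ : G) (i : ι), i ≠ j →
    |gp h hA c ((geoT h hA (H := H)).nb ((geoT h hA (H := H)).r ((frT h hA c ir hW hF).gf γ)))⁻¹ i - Δ.mu (ir γ) i| ≤ C := by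
  obtain ⟨C, hC0, hC⟩ := gp_shift h hA c hH (isCompact_KS h hA H)
  refine ⟨C, hC0, fun γ i hi => ?_⟩
  obtain ⟨k, hk, e⟩ := shape h hA c ir hW hF γ
  rw [e]
  have h1 := hC 1 (Pool.Agent.Helper87.FQ.KS h hA H).one_mem k hk (rsS h hA H (eaM h hA c (Δ.mu (ir γ) - Pi.single j (Δ.mu (ir γ) j)))) i
  rw [one_mul, gp_eaM h hA c hH (by rw [Pi.sub_apply, Pi.single_eq_same, sub_self]) (fun i => by
    by_cases hi : i = j
    · rw [hi, Pi.sub_apply, Pi.single_eq_same, sub_self]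
    · rw [Pi.sub_apply, Pi.single_eq_of_ne hi, sub_zero]
      exact Δ.mu_nonneg _ _), Pi.sub_apply, Pi.single_eq_of_ne hi, sub_zero] at h1
  exact h1

section Main

variable {G1 X : Type} [Group G1] [TopologicalSpace G1] [IsTopologicalGroup G1] [MeasurableSpace X] [MulAction G1 X]
  [MeasurableConstSMul G1 X] {μ : Measure X} [SMulInvariantMeasure G1 X μ]
  [IsProbabilityMeasure μ] {Γ : Subgroup G1} [Countable Γ] {a : Cocy G1 X Γ} {E : Emb Γ G} {s : ℕ → G1}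
  (B : BMap μ a E R (Δ.pdOf j ir) s)
  (h3 : Tendsto (fun g : G1 => μ {x | a.a g x ≠ 1}) (𝓝 1) (𝓝 0)) (hK : Kcont G1 μ) (hE : ErgU μ a E (Ctr s))
  {F1 : Subgroup G1} {par : G1 → ℝ} {d : ℕ} (D : Dir G1 F1 par d) (hbF : ∀ n, s n ∈ F1)

/-- The boundary data. -/
noncomputable abbrev bdT : BD (geoT h hA (H := H)) G D.S' (XL μ (L2 G)) (XUa μ R) :=
  bdDR (frT h hA c ir hW hF) B h3 hK hE (Δ.plf_of j ir R hF) D hbF

/-- **The abstract data at the node `j`.** -/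
noncomputable abbrev levT (ν : Measure (SS h hA H)) [ν.IsHaarMeasure] [ν.IsMulRightInvariant] :
    Lev D.S' (SS h hA H) (Kt (bdT h hA c ir hW hF B h3 hK hE D hbF) (lam ν)) ν :=
  levOf ν (bdT h hA c ir hW hF B h3 hK hE D hbF) (isClosed_QT h hA) (isCompact_KS h hA H)

variable (hir : ∀ B : Set (autC b), IsCompact B → (ir ⁻¹' B).Finite)
  (hH : ∀ x : A, (∀ φ ∈ rootsL A, φ H = 0 → φ x = 0) → ∃ c : ℝ, x = c • H)
  (hsp : Tendsto (fun n => par (s n)) (hyperfilter ℕ : Filter ℕ) atTop)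
  (σ : X → G1) (hσ : ∀ B : Set G1, MeasurableSet[borel G1] B → MeasurableSet (σ ⁻¹' B))
  (hσa : ∀ (g : G1) (x : X), g * σ x = σ (g • x) * (a.a g x : G1))

theorem isOpenMap_nbT : IsOpenMap (geoT h hA (H := H)).nb := isOpenMap_nbS h hA H _ rfl

include hir hH hsp hσ hσa in
/-- **The ping-pong operators at the node `j`.** -/
theorem hppT (ν : Measure (SS h hA H)) [ν.IsHaarMeasure] [ν.IsMulRightInvariant] :
    ∀ t ∈ D.fam.Sg, ∀ Nn : Subgroup D.S', Nn.Normal → t ∈ Nn → ∀ k : ℕ, ∃ g : Fin k → D.S', (∀ i, g i ∈ Nn) ∧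
      Nonempty (PP (levT h hA c ir hW hF B h3 hK hE D hbF ν) D.mult k g) := by
  exact hppR ν (isClosed_QT h hA) (isCompact_KS h hA H) (isOpenMap_nbT h hA) (frT h hA c ir hW hF) (amnT h hA c ir hW hF hir hH) B h3 hK hE
    (Δ.plf_of j ir R hF) D hbF hsp σ hσ hσa

include h hA c hW hF B h3 hK hE D hbF hir hH hsp hσ hσa in
/-- **The inequality of the dimensions at the node `j`.** -/
theorem dim_le : d ≤ Module.finrank ℝ (lsub A H) := by
  by_contra hlt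
  push Not at hlt
  obtain ⟨ν, i1, i2, z, hz, -⟩ := exists_haarS h hA H
  exact contraR ν (isClosed_QT h hA) (isCompact_KS h hA H) (isOpenMap_nbT h hA) (frT h hA c ir hW hF) (amnT h hA c ir hW hF hir hH) B h3 hK hE
    (Δ.plf_of j ir R hF) D hbF hsp σ hσ hσa z (by rw [hz]; exact hlt)

include hH in
/-- **The law of the gaps** (the hypothesis of the size statement). -/
theorem hypT : ∃ C : ℝ, 0 ≤ C ∧ ∀ (v : ι → ℝ) (r ε : ℝ) (t : D.S'),
    (∀ᶠ n in (hyperfilter ℕ : Filter ℕ), mass μ a E {γ | ∃ i, i ≠ j ∧ r < |Δ.mu (ir γ) i - v i|} (s n * D.ι t) ≤ ε) →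
    ∀ f : autC b → ℂ, (∀ g, ‖f g‖ ≤ 1) → (∀ g, (∀ i, i ≠ j → |gp h hA c ((geoT h hA (H := H)).nb ((geoT h hA (H := H)).r g))⁻¹ i - v i| ≤ r + C) →
      f g = 0) →
    ‖(bdT h hA c ir hW hF B h3 hK hE D hbF).E f ((bdT h hA c ir hW hF B h3 hK hE D hbF).T ((bdT h hA c ir hW hF B h3 hK hE D hbF).V t
      (cst μ (dl 1))))‖ ^ 2 ≤ B.p⁻¹ * ε := by
  obtain ⟨C, hC0, hC⟩ := shape_gp h hA c ir hW hF hH
  refine ⟨C, hC0, fun v r ε t hm f hf hf0 => ?_⟩
  refine norm_E_V (frT h hA c ir hW hF) B h3 hK hE (Δ.plf_of j ir R hF) D hbF hf (fun γ hγ => hf0 _ fun i hi => ?_) t hm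
  have h1 : |Δ.mu (ir γ) i - v i| ≤ r := by
    by_contra hlt
    exact hγ ⟨i, hi, not_le.1 hlt⟩
  have h2 := hC γ i hi
  have h4 := abs_sub_le (gp h hA c ((geoT h hA (H := H)).nb ((geoT h hA (H := H)).r ((frT h hA c ir hW hF).gf γ)))⁻¹ i) (Δ.mu (ir γ) i) (v i)
  linarith

end Main

end Pool.Agent.Helper78.FQ
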