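import Pool.Agent.Helper96.SA.Exp

/-!
# Project FQ (MP_0f6f3f_an), layer TZ: the limits of `exp(t' H) u exp(- t H)`, `u` orthogonal, `t, t' → ∞`, `t' - t` bounded

`Dg H`: an orthogonal matrix `U` with `H = U diag(h) Uᵀ`. `lim_tri`: the limits are block triangular, the diagonal part is `exp(s H) u₀` with an orthogonal `u₀` which commutes with `H`.
-/

set_option autoImplicit false

open Filter Topology Matrix

namespace Pool.Agent.Helper78.FQ

open Pool.Agent.Helper96.SA

variable {N : ℕ}

/-- A diagonalisation of `H`. -/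
structure Dg (H : Mat N) where
  /-- the orthogonal matrix -/
  U : Mat N
  /-- the eigenvalues -/
  h : Fin N → ℝ
  UU : Uᵀ * U = 1
  UU' : U * Uᵀ = 1
  spec : H = U * diagonal h * Uᵀ

theorem exists_dg {H : Mat N} (hH : Hᵀ = H) : Nonempty (Dg H) := by
  have hHe : H.IsHermitian := by
    rw [Matrix.IsHermitian, conjTranspose_eq_transpose_of_trivial]
    exact hH
  refine ⟨⟨hHe.eigenvectorUnitary, hHe.eigenvalues, ?_, ?_, ?_⟩⟩
  · have := Unitary.coe_star_mul_self hHe.eigenvectorUnitary
    rw [Matrix.star_eq_conjTranspose, conjTranspose_eq_transpose_of_trivial] at this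
    exact this
  · have := Unitary.coe_mul_star_self hHe.eigenvectorUnitary
    rw [Unitary.coe_star, Matrix.star_eq_conjTranspose, conjTranspose_eq_transpose_of_trivial] at this
    exact this
  · have := hHe.spectral_theorem
    rw [Unitary.conjStarAlgAut_apply, Matrix.star_eq_conjTranspose,
      conjTranspose_eq_transpose_of_trivial] at this
    exact this

namespace Dg

variable {H : Mat N} (g : Dg H)

/-- The matrix in the coordinates of the diagonalisation. -/
def co (A : Mat N) : Mat N := g.Uᵀ * A * g.U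

theorem co_mul (A B : Mat N) : g.co (A * B) = g.co A * g.co B := by
  unfold co
  calc g.Uᵀ * (A * B) * g.U = g.Uᵀ * A * (1 : Mat N) * B * g.U := by simp only [Matrix.mul_assoc, Matrix.mul_one]
    _ = g.Uᵀ * A * g.U * (g.Uᵀ * B * g.U) := by
        rw [← g.UU']
        simp only [Matrix.mul_assoc]

theorem co_one : g.co 1 = 1 := by
  unfold co
  rw [Matrix.mul_one, g.UU]

theorem co_transpose (A : Mat N) : g.co Aᵀ = (g.co A)ᵀ := by
  unfold co
  rw [transpose_mul, transpose_mul, transpose_transpose, Matrix.mul_assoc]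

theorem co_inj {A B : Mat N} (h : g.co A = g.co B) : A = B := by
  have h1 : ∀ A : Mat N, g.U * g.co A * g.Uᵀ = A := by
    intro A
    unfold co
    calc g.U * (g.Uᵀ * A * g.U) * g.Uᵀ = (g.U * g.Uᵀ) * A * (g.U * g.Uᵀ) := by simp only [Matrix.mul_assoc]
      _ = A := by rw [g.UU', Matrix.one_mul, Matrix.mul_one]
  rw [← h1 A, h, h1]

theorem co_surj (B : Mat N) : ∃ A, g.co A = B := by
  refine ⟨g.U * B * g.Uᵀ, ?_⟩
  unfold co
  calc g.Uᵀ * (g.U * B * g.Uᵀ) * g.U = (g.Uᵀ * g.U) * B * (g.Uᵀ * g.U) := by simp only [Matrix.mul_assoc]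
    _ = B := by rw [g.UU, Matrix.one_mul, Matrix.mul_one]

theorem continuous_co : Continuous g.co := (continuous_const.mul continuous_id).mul continuous_const

theorem co_H : g.co H = diagonal g.h := by
  unfold co
  calc g.Uᵀ * H * g.U = g.Uᵀ * (g.U * diagonal g.h * g.Uᵀ) * g.U := by rw [← g.spec]
    _ = (g.Uᵀ * g.U) * diagonal g.h * (g.Uᵀ * g.U) := by simp only [Matrix.mul_assoc]
    _ = _ := by rw [g.UU, Matrix.one_mul, Matrix.mul_one]

theorem co_ex (t : ℝ) : g.co (ex (t • H) : GL (Fin N) ℝ) = diagonal fun i => Real.exp (t * g.h i) := by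
  have h1 : t • H = g.U * diagonal (fun i => t * g.h i) * g.Uᵀ := by
    conv_lhs => rw [g.spec]
    rw [← smul_mul_assoc, ← mul_smul_comm, ← diagonal_smul]
    rfl
  rw [ex_coe, h1, exp_diag g.U g.UU g.UU']
  unfold co
  calc g.Uᵀ * (g.U * (diagonal fun i => Real.exp (t * g.h i)) * g.Uᵀ) * g.U
      = (g.Uᵀ * g.U) * (diagonal fun i => Real.exp (t * g.h i)) * (g.Uᵀ * g.U) := by simp only [Matrix.mul_assoc]
    _ = _ := by rw [g.UU, Matrix.one_mul, Matrix.mul_one]

theorem orth_iff {A : Mat N} : Aᵀ * A = 1 ↔ (g.co A)ᵀ * g.co A = 1 := by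
  rw [← co_transpose, ← co_mul]
  constructor
  · intro h
    rw [h, co_one]
  · intro h
    exact g.co_inj (by rw [h, co_one])

theorem comm_iff {A : Mat N} : A * H = H * A ↔ ∀ i j, g.h i ≠ g.h j → g.co A i j = 0 := by
  have h1 : A * H = H * A ↔ g.co A * diagonal g.h = diagonal g.h * g.co A := by
    rw [← co_H, ← co_mul, ← co_mul]
    exact ⟨fun h => by rw [h], fun h => g.co_inj h⟩
  rw [h1]
  constructor
  · intro h i j hij
    have h2 := congrFun (congrFun h i) j
    rw [mul_diagonal, diagonal_mul] at h2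
    have h3 : (g.h i - g.h j) * g.co A i j = 0 := by linarith
    exact (mul_eq_zero.1 h3).resolve_left (sub_ne_zero.2 hij)
  · intro h
    ext i j
    rw [mul_diagonal, diagonal_mul]
    by_cases hij : g.h i = g.h j
    · rw [hij, mul_comm]
    · rw [h i j hij, mul_zero, zero_mul]

end Dg

/-- Block triangular matrices. -/
def Tr (h : Fin N → ℝ) (A : Mat N) : Prop := ∀ i j, h i < h j → A i j = 0

theorem tr_iff {h : Fin N → ℝ} {A : Mat N} : Tr h A ↔ A.BlockTriangular fun i => OrderDual.toDual (h i) := by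
  constructor
  · intro h' i j hij
    exact h' i j hij
  · intro h' i j hij
    exact h' hij

theorem Tr.mul {h : Fin N → ℝ} {A B : Mat N} (hA : Tr h A) (hB : Tr h B) : Tr h (A * B) := tr_iff.2 ((tr_iff.1 hA).mul (tr_iff.1 hB))

theorem Tr.inv {h : Fin N → ℝ} {A B : Mat N} (hA : Tr h A) (hAB : A * B = 1) : Tr h B := by
  have h1 : A⁻¹ = B := Matrix.inv_eq_right_inv hAB
  have : Invertible A := invertibleOfRightInverse A B hAB
  rw [← h1]
  exact tr_iff.2 (Matrix.blockTriangular_inv_of_blockTriangular (tr_iff.1 hA))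

theorem isCompact_orthM : IsCompact {A : Mat N | Aᵀ * A = 1} := by
  have hK : IsCompact {A : Mat N | ∀ x y, ‖A x y‖ ≤ 1} := by
    have : {A : Mat N | ∀ x y, ‖A x y‖ ≤ 1} = Set.pi Set.univ fun _ : Fin N => Set.pi Set.univ fun _ : Fin N => Metric.closedBall (0 : ℝ) 1 := by
      ext A
      constructor
      · intro hA x _ y _
        rw [Metric.mem_closedBall, dist_zero_right]
        exact hA x y
      · intro hA x y
        have h1 := hA x (Set.mem_univ _) y (Set.mem_univ _)
        rwa [Metric.mem_closedBall, dist_zero_right] at h1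
    rw [this]
    exact isCompact_univ_pi fun _ => isCompact_univ_pi fun _ => isCompact_closedBall 0 1
  refine hK.of_isClosed_subset ?_ fun A hA x y => ?_
  · exact isClosed_eq ((continuous_id.matrix_transpose).mul continuous_id) continuous_const
  · have h1 := congrFun (congrFun hA y) y
    rw [Matrix.mul_apply, Matrix.one_apply_eq] at h1
    have h2 : A x y * A x y ≤ ∑ z, Aᵀ y z * A z y :=
      Finset.single_le_sum (f := fun z => Aᵀ y z * A z y) (fun z _ => mul_self_nonneg (A z y)) (Finset.mem_univ x)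
    rw [h1] at h2
    rw [Real.norm_eq_abs, abs_le]
    constructor <;> nlinarith

/-- **The limits.** -/
theorem lim_tri {ι : Type} (l : Ultrafilter ι) (h : Fin N → ℝ) (m q : ι → Mat N) (t t' : ι → ℝ) (hm : ∀ᶠ x in (l : Filter ι), (m x)ᵀ * m x = 1)
    (ht : Tendsto t l atTop) {C : ℝ} (hC : ∀ᶠ x in (l : Filter ι), |t' x - t x| ≤ C)
    (hq : ∀ᶠ x in (l : Filter ι), ∀ i j, q x i j = Real.exp (t' x * h i) * m x i j * Real.exp (-(t x * h j))) {q0 : Mat N} (hq0 : Tendsto q l (𝓝 q0)) :
    Tr h q0 ∧ ∃ (u : Mat N) (s : ℝ), uᵀ * u = 1 ∧ (∀ i j, h i ≠ h j → u i j = 0) ∧ ∀ i j, h i = h j → q0 i j = Real.exp (s * h i) * u i j := by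
  obtain ⟨u, hu, hlu⟩ := (isCompact_orthM (N := N)).ultrafilter_le_nhds (l.map m) (by
    rw [le_principal_iff]
    exact hm)
  have hmu : Tendsto m l (𝓝 u) := hlu
  obtain ⟨s, -, hls⟩ := (isCompact_Icc (a := -C) (b := C)).ultrafilter_le_nhds (l.map fun x => t' x - t x) (by
    rw [le_principal_iff]
    have h1 : ∀ᶠ x in (l : Filter ι), t' x - t x ∈ Set.Icc (-C) C := by
      filter_upwards [hC] with x hx
      exact abs_le.1 hx
    exact h1)
  have hs : Tendsto (fun x => t' x - t x) l (𝓝 s) := hls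
  have hmij : ∀ i j, Tendsto (fun x => m x i j) l (𝓝 (u i j)) := fun i j => ((continuous_id.matrix_elem i j).tendsto _).comp hmu
  have hqij : ∀ i j, Tendsto (fun x => q x i j) l (𝓝 (q0 i j)) := fun i j => ((continuous_id.matrix_elem i j).tendsto _).comp hq0
  have hz : ∀ c : ℝ, c < 0 → Tendsto (fun x => Real.exp (t x * c)) l (𝓝 0) := by
    intro c hc
    exact Real.tendsto_exp_atBot.comp (ht.atTop_mul_const_of_neg hc)
  have hd : ∀ c : ℝ, Tendsto (fun x => Real.exp ((t' x - t x) * c)) l (𝓝 (Real.exp (s * c))) := by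
    intro c
    exact (Real.continuous_exp.tendsto _).comp (hs.mul_const c)
  -- the entries of `u` with `h j < h i` vanish
  have h1 : ∀ i j, h j < h i → u i j = 0 := by
    intro i j hij
    have e1 : Tendsto (fun x => q x i j * Real.exp (t x * (h j - h i)) * Real.exp ((t' x - t x) * (-h i))) l
        (𝓝 (q0 i j * 0 * Real.exp (s * (-h i)))) := ((hqij i j).mul (hz _ (by linarith))).mul (hd _)
    rw [mul_zero, zero_mul] at e1
    refine tendsto_nhds_unique (hmij i j) (e1.congr' ?_)
    filter_upwards [hq] with x hx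
    rw [hx i j]
    have e2 : Real.exp (t' x * h i) * Real.exp (-(t x * h j)) * (Real.exp (t x * (h j - h i)) * Real.exp ((t' x - t x) * (-h i))) = 1 := by
      rw [← Real.exp_add, ← Real.exp_add, ← Real.exp_add, Real.exp_eq_one_iff]
      ring
    calc Real.exp (t' x * h i) * m x i j * Real.exp (-(t x * h j)) * Real.exp (t x * (h j - h i)) * Real.exp ((t' x - t x) * (-h i))
        = m x i j * (Real.exp (t' x * h i) * Real.exp (-(t x * h j)) * (Real.exp (t x * (h j - h i)) * Real.exp ((t' x - t x) * (-h i)))) := by ring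
      _ = m x i j := by rw [e2, mul_one]
  -- so `u` is block diagonal
  have hu1 : uᵀ * u = 1 := hu
  have h2 : ∀ i j, h i ≠ h j → u i j = 0 := by
    intro i j hij
    rcases lt_or_gt_of_ne hij with h3 | h3
    · have h4 : Tr h (uᵀ) := fun i j hij => h1 j i hij
      have h5 := h4.inv hu1
      exact h5 i j h3
    · exact h1 i j h3
  refine ⟨fun i j hij => ?_, u, s, hu1, h2, fun i j hij => ?_⟩
  · have e1 : Tendsto (fun x => m x i j * Real.exp (t x * (h i - h j)) * Real.exp ((t' x - t x) * h i)) l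
        (𝓝 (u i j * 0 * Real.exp (s * h i))) := ((hmij i j).mul (hz _ (by linarith))).mul (hd _)
    rw [mul_zero, zero_mul] at e1
    refine tendsto_nhds_unique (hqij i j) (e1.congr' ?_)
    filter_upwards [hq] with x hx
    rw [hx i j]
    have e2 : Real.exp (t x * (h i - h j)) * Real.exp ((t' x - t x) * h i) = Real.exp (t' x * h i) * Real.exp (-(t x * h j)) := by
      rw [← Real.exp_add, ← Real.exp_add]
      congr 1
      ring
    rw [mul_assoc, e2]
    ring
  · have e1 : Tendsto (fun x => m x i j * Real.exp ((t' x - t x) * h i)) l (𝓝 (u i j * Real.exp (s * h i))) := (hmij i j).mul (hd _)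
    rw [mul_comm] at e1
    refine tendsto_nhds_unique (hqij i j) (e1.congr' ?_)
    filter_upwards [hq] with x hx
    rw [hx i j]
    have e2 : Real.exp ((t' x - t x) * h i) = Real.exp (t' x * h i) * Real.exp (-(t x * h j)) := by
      rw [← Real.exp_add, hij]
      congr 1
      ring
    rw [e2]
    ring

end Pool.Agent.Helper78.FQ
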