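import Pool.Agent.Helper78.FQ.BdR
import Pool.Agent.Helper78.FQ.Lim
import Pool.Agent.Helper96.SA.Conj

/-!
# Project FQ (MP_0f6f3f_an), layer TZ: the frames over an abstract target

`G0` a closed group of real matrices, `H` symmetric, `exp(tH) ∈ G0`. `FrD G0 H R pd`: the Cartan decomposition of the elements of a discrete group `G` in the region `R`:
`ir γ = kL γ * M γ * exp(- t γ H) * kR γ`, `kL`, `kR` orthogonal, `M γ` commutes with `H` and is bounded in the regions, `t → ∞` at infinity of the regions. The frame of `γ` is `gf γ = (kR γ)⁻¹ (M γ)⁻¹`.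
`FrD.frm`: the frames for a geometry `geo` whose parabolic group consists of the block triangular matrices.
-/

set_option autoImplicit false
set_option linter.unusedSectionVars false

open Filter Topology Matrix Pointwise

namespace Pool.Agent.Helper78.FQ

open Pool.Agent.Helper96.SA
open Pool.Agent.Helper84 Pool.Agent.Helper84.GN Pool.Agent.Helper84.GN.S3 Pool.Agent.Helper84.GN.S3.X
open Pool.Agent.Helper35.FP Pool.Agent.Helper78.BM Pool.Agent.Helper78.BI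

variable {N : ℕ} {G0 : Subgroup (GL (Fin N) ℝ)}

/-- The matrix of an element. -/
def mx (g : G0) : Mat N := ((g : GL (Fin N) ℝ) : Mat N)

theorem mx_mul (g g' : G0) : mx (g * g') = mx g * mx g' := rfl

theorem mx_one : mx (1 : G0) = 1 := rfl

theorem mx_inj {g g' : G0} (h : mx g = mx g') : g = g' := Subtype.ext (Units.ext h)

theorem mx_mul_inv (g : G0) : mx g * mx g⁻¹ = 1 := by rw [← mx_mul, mul_inv_cancel, mx_one]

theorem mx_inv_mul (g : G0) : mx g⁻¹ * mx g = 1 := by rw [← mx_mul, inv_mul_cancel, mx_one]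

theorem continuous_mx : Continuous (mx : G0 → Mat N) := Units.continuous_val.comp continuous_subtype_val

theorem mx_inv_orth {g : G0} (h : (mx g)ᵀ * mx g = 1) : mx g⁻¹ = (mx g)ᵀ := by
  calc mx g⁻¹ = (mx g)ᵀ * mx g * mx g⁻¹ := by rw [h, Matrix.one_mul]
    _ = _ := by rw [Matrix.mul_assoc, mx_mul_inv, Matrix.mul_one]

theorem orth_mx_inv {g : G0} (h : (mx g)ᵀ * mx g = 1) : (mx g⁻¹)ᵀ * mx g⁻¹ = 1 := by
  rw [mx_inv_orth h, transpose_transpose, ← mx_inv_orth h, mx_mul_inv]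

theorem orth_mx_mul {g g' : G0} (h : (mx g)ᵀ * mx g = 1) (h' : (mx g')ᵀ * mx g' = 1) : (mx (g * g'))ᵀ * mx (g * g') = 1 := by
  rw [mx_mul, transpose_mul]
  calc (mx g')ᵀ * (mx g)ᵀ * (mx g * mx g') = (mx g')ᵀ * ((mx g)ᵀ * mx g) * mx g' := by simp only [Matrix.mul_assoc]
    _ = 1 := by rw [h, Matrix.mul_one, h']

theorem isCompact_KG0 (hG : IsClosed (G0 : Set (GL (Fin N) ℝ))) : IsCompact {k : G0 | (mx k)ᵀ * mx k = 1} := by
  have h1 := (hG.isClosedEmbedding_subtypeVal (X := GL (Fin N) ℝ)).isCompact_preimage (isCompact_orth hG)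
  refine h1.of_isClosed_subset ?_ fun k hk => ⟨k.2, hk⟩
  exact isClosed_eq ((continuous_mx.matrix_transpose).mul continuous_mx) continuous_const

/-- The Cartan decomposition in the region `R`. -/
structure FrD (G0 : Subgroup (GL (Fin N) ℝ)) {H : Mat N} (D : Dg H) {G : Type} [Group G] (R : Reg G) (pd : PD G) where
  /-- the embedding -/
  ir : G →* G0
  /-- left -/
  kL : G → G0
  /-- right -/
  kR : G → G0
  /-- the bounded part -/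
  M : G → G0
  /-- the size of the unbounded part -/
  t : G → ℝ
  oL : ∀ γ, (mx (kL γ))ᵀ * mx (kL γ) = 1
  oR : ∀ γ, (mx (kR γ))ᵀ * mx (kR γ) = 1
  MH : ∀ γ, mx (M γ) * H = H * mx (M γ)
  dec : ∀ γ, (ir γ : GL (Fin N) ℝ) = kL γ * M γ * (ex (t γ • H))⁻¹ * kR γ
  Mb : ∀ n, ∃ C : Set G0, IsCompact C ∧ ∀ γ ∈ R.W n, M γ ∈ C
  tt : ∀ n, Tendsto t (R.F n) atTop
  tb : ∀ (k : G) (n : ℕ), ∃ C : ℝ, ∀ᶠ γ in R.F n, |t (γ * k) - t γ| ≤ C
  pos : ∀ (l : Ultrafilter ℕ) (x y : ℕ → G) (k : G0), Tendsto (fun i => pd.d (x i) (y i)) l (𝓝 0) →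
    Tendsto (fun i => kR (x i) * (kR (y i))⁻¹) l (𝓝 k) → Tr D.h (D.co (mx k))

namespace FrD

variable {H : Mat N} {D : Dg H} {G : Type} [Group G] {R : Reg G} {pd : PD G} (F : FrD G0 D R pd)

/-- The frame. -/
def gf (γ : G) : G0 := (F.kR γ)⁻¹ * (F.M γ)⁻¹

/-- The comparison element. -/
theorem cmp (γ k : G) : ((((F.gf (γ * k))⁻¹ * (F.ir k)⁻¹ * F.gf γ : G0)) : GL (Fin N) ℝ) =
    ex (F.t (γ * k) • H) * ((((F.kL (γ * k))⁻¹ * F.kL γ : G0)) : GL (Fin N) ℝ) * (ex (F.t γ • H))⁻¹ := by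
  have h1 := F.dec (γ * k)
  rw [map_mul, Subgroup.coe_mul, F.dec γ] at h1
  have e1 : ∀ γ : G, (F.M γ : GL (Fin N) ℝ) * (ex (F.t γ • H))⁻¹ = (ex (F.t γ • H))⁻¹ * F.M γ := by
    intro γ
    have h2 : (F.M γ : GL (Fin N) ℝ) * ex (F.t γ • H) = ex (F.t γ • H) * F.M γ := by
      refine ex_commute ?_
      rw [Matrix.mul_smul, Matrix.smul_mul]
      congr 1
      exact F.MH γ
    rw [eq_inv_mul_iff_mul_eq, ← mul_assoc, ← h2, mul_inv_cancel_right]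
  -- `k⁻¹ = kR(γk)⁻¹ c' M'⁻¹ kL'⁻¹ kL M c⁻¹ kR`
  have h3 : ((F.ir k)⁻¹ : G0) = (((F.kR (γ * k))⁻¹ : G0) : GL (Fin N) ℝ) * ex (F.t (γ * k) • H) * (((F.M (γ * k))⁻¹ : G0) : GL (Fin N) ℝ) *
      (((F.kL (γ * k))⁻¹ * F.kL γ : G0) : GL (Fin N) ℝ) * F.M γ * (ex (F.t γ • H))⁻¹ * F.kR γ := by
    have h4 : (F.ir k : GL (Fin N) ℝ) = ((F.kL γ : GL (Fin N) ℝ) * F.M γ * (ex (F.t γ • H))⁻¹ * F.kR γ)⁻¹ *
        (F.kL (γ * k) * F.M (γ * k) * (ex (F.t (γ * k) • H))⁻¹ * F.kR (γ * k)) := by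
      rw [← h1, inv_mul_cancel_left]
    rw [Subgroup.coe_inv, h4]
    simp only [Subgroup.coe_inv, Subgroup.coe_mul]
    group
  unfold gf
  rw [Subgroup.coe_mul, Subgroup.coe_mul, h3]
  have h5 := e1 γ
  have h6 := e1 (γ * k)
  simp only [Subgroup.coe_inv, Subgroup.coe_mul, _root_.mul_inv_rev, inv_inv] at *
  obtain ⟨c, hc⟩ : ∃ c, c = ex (F.t γ • H) := ⟨_, rfl⟩
  obtain ⟨c', hc'⟩ : ∃ c', c' = ex (F.t (γ * k) • H) := ⟨_, rfl⟩
  obtain ⟨m, hm⟩ : ∃ m : GL (Fin N) ℝ, m = F.M γ := ⟨_, rfl⟩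
  obtain ⟨m', hm'⟩ : ∃ m' : GL (Fin N) ℝ, m' = F.M (γ * k) := ⟨_, rfl⟩
  rw [← hc, ← hc', ← hm, ← hm']
  rw [← hc, ← hm] at h5
  rw [← hc', ← hm'] at h6
  have h7 : m' * c' = c' * m' := by
    have h8 := congrArg (fun x => c' * x * c') h6
    simp only [mul_assoc, inv_mul_cancel, mul_one] at h8
    rw [← mul_assoc, ← mul_assoc, mul_inv_cancel, one_mul] at h8
    exact h8.symm
  calc m' * (F.kR (γ * k) : GL (Fin N) ℝ) * (((F.kR (γ * k) : GL (Fin N) ℝ))⁻¹ * c' * m'⁻¹ * ((F.kL (γ * k) : GL (Fin N) ℝ)⁻¹ * F.kL γ) * m * c⁻¹ *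
        F.kR γ) * ((F.kR γ : GL (Fin N) ℝ)⁻¹ * m⁻¹)
      = (m' * c') * m'⁻¹ * ((F.kL (γ * k) : GL (Fin N) ℝ)⁻¹ * F.kL γ) * (m * c⁻¹) * m⁻¹ := by group
    _ = c' * ((F.kL (γ * k) : GL (Fin N) ℝ)⁻¹ * F.kL γ) * c⁻¹ := by
        rw [h7, h5]
        group

/-- The limits of the comparison elements. -/
theorem lim_cmp (k : G) {n : ℕ} (l : Ultrafilter G) (hl : (l : Filter G) ≤ R.F n) {g0 g1 : G0} (h0 : Tendsto F.gf l (𝓝 g0))
    (h1 : Tendsto (fun γ => F.gf (γ * k)) l (𝓝 g1)) :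
    Tr D.h (D.co (mx (g1⁻¹ * (F.ir k)⁻¹ * g0))) ∧ ∃ (u : Mat N) (s : ℝ), uᵀ * u = 1 ∧ (∀ i j, D.h i ≠ D.h j → u i j = 0) ∧
      ∀ i j, D.h i = D.h j → D.co (mx (g1⁻¹ * (F.ir k)⁻¹ * g0)) i j = Real.exp (s * D.h i) * u i j := by
  have hq : Tendsto (fun γ => D.co (mx ((F.gf (γ * k))⁻¹ * (F.ir k)⁻¹ * F.gf γ))) l (𝓝 (D.co (mx (g1⁻¹ * (F.ir k)⁻¹ * g0)))) :=
    ((D.continuous_co.comp continuous_mx).tendsto _).comp ((h1.inv.mul_const _).mul h0)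
  obtain ⟨C, hC⟩ := F.tb k n
  refine lim_tri l D.h (fun γ => D.co (mx ((F.kL (γ * k))⁻¹ * F.kL γ))) _ F.t (fun γ => F.t (γ * k)) (Eventually.of_forall fun γ => ?_)
    ((F.tt n).mono_left hl) (hl hC) (Eventually.of_forall fun γ i j => ?_) hq
  · exact (D.orth_iff).1 (orth_mx_mul (orth_mx_inv (F.oL _)) (F.oL _))
  · have h2 := congrArg (fun x : GL (Fin N) ℝ => D.co (x : Mat N)) (F.cmp γ k)
    have h3 : D.co (mx ((F.gf (γ * k))⁻¹ * (F.ir k)⁻¹ * F.gf γ)) =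
        D.co (ex (F.t (γ * k) • H) : GL (Fin N) ℝ) * D.co (mx ((F.kL (γ * k))⁻¹ * F.kL γ)) * D.co ((ex (-(F.t γ) • H) : GL (Fin N) ℝ) : Mat N) := by
      rw [← D.co_mul, ← D.co_mul]
      refine h2.trans ?_
      rw [neg_smul, ex_neg]
      rfl
    rw [h3, D.co_ex, D.co_ex, mul_diagonal, diagonal_mul, neg_mul]

variable {𝕊 : Type} [Group 𝕊] [TopologicalSpace 𝕊] {𝕂 : Subgroup 𝕊} {geo : Geo G0 𝕊 𝕂}

/-- The frames stay in a compact set. -/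
theorem gf_cpt (hG : IsClosed (G0 : Set (GL (Fin N) ℝ))) (n : ℕ) : ∃ C : Set G0, IsCompact C ∧ ∀ γ ∈ R.W n, F.gf γ ∈ C := by
  obtain ⟨C, hC, h⟩ := F.Mb n
  refine ⟨{k : G0 | (mx k)ᵀ * mx k = 1}⁻¹ * C⁻¹, (isCompact_KG0 hG).inv.mul hC.inv, fun γ hγ => ?_⟩
  exact Set.mul_mem_mul (Set.inv_mem_inv.2 (F.oR γ)) (Set.inv_mem_inv.2 (h γ hγ))

/-- The frames, along the filters. -/
theorem exists_lim (hG : IsClosed (G0 : Set (GL (Fin N) ℝ))) {n : ℕ} (l : Ultrafilter G) (hl : (l : Filter G) ≤ R.F n) :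
    ∃ g0, Tendsto F.gf l (𝓝 g0) := by
  obtain ⟨C, hC, h⟩ := F.gf_cpt hG n
  obtain ⟨g0, -, h0⟩ := hC.ultrafilter_le_nhds (l.map F.gf) (by
    rw [le_principal_iff]
    have h1 : ∀ᶠ γ in (l : Filter G), F.gf γ ∈ C := by
      filter_upwards [hl (le_principal_iff.1 (R.le n))] with γ hγ
      exact h γ hγ
    exact h1)
  exact ⟨g0, h0⟩

theorem exists_lim' (hG : IsClosed (G0 : Set (GL (Fin N) ℝ))) (k : G) {n : ℕ} (l : Ultrafilter G) (hl : (l : Filter G) ≤ R.F n) :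
    ∃ g1, Tendsto (fun γ => F.gf (γ * k)) l (𝓝 g1) := by
  obtain ⟨n', hn'⟩ := R.shift 1 k n
  obtain ⟨C, hC, h⟩ := F.gf_cpt hG n'
  obtain ⟨g0, -, h0⟩ := hC.ultrafilter_le_nhds (l.map fun γ => F.gf (γ * k)) (by
    rw [le_principal_iff]
    have h1 : ∀ᶠ γ in (l : Filter G), F.gf (γ * k) ∈ C := by
      filter_upwards [hl (hn' (le_principal_iff.1 (R.le n')))] with γ hγ
      have h2 := h _ hγ
      simp only [inv_one, one_mul] at h2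
      exact h2
    exact h1)
  exact ⟨g0, h0⟩

/-- **Covariance.** -/
theorem cov (hG : IsClosed (G0 : Set (GL (Fin N) ℝ))) {f : G0 → ℂ} (hfc : Continuous f)
    (hfi : ∀ g q : G0, Tr D.h (D.co (mx q)) → (∃ (u : Mat N) (s : ℝ), uᵀ * u = 1 ∧ (∀ i j, D.h i ≠ D.h j → u i j = 0) ∧
      ∀ i j, D.h i = D.h j → D.co (mx q) i j = Real.exp (s * D.h i) * u i j) → f (g * q) = f g) (k : G) (n : ℕ) :
    Tendsto (fun γ => f (F.gf (γ * k)) - f ((F.ir k)⁻¹ * F.gf γ)) (R.F n) (𝓝 0) := by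
  rw [tendsto_iff_ultrafilter]
  intro l hl
  obtain ⟨g0, h0⟩ := F.exists_lim hG l hl
  obtain ⟨g1, h1⟩ := F.exists_lim' hG k l hl
  obtain ⟨h2, h3⟩ := F.lim_cmp k l hl h0 h1
  have h4 : f (g1 * (g1⁻¹ * (F.ir k)⁻¹ * g0)) = f g1 := hfi g1 _ h2 h3
  have h5 : g1 * (g1⁻¹ * (F.ir k)⁻¹ * g0) = (F.ir k)⁻¹ * g0 := by group
  rw [h5] at h4
  have l1 : Tendsto (fun γ => f (F.gf (γ * k))) l (𝓝 (f g1)) := (hfc.tendsto _).comp h1
  have l2 : Tendsto (fun γ => f ((F.ir k)⁻¹ * F.gf γ)) l (𝓝 (f ((F.ir k)⁻¹ * g0))) :=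
    ((hfc.comp (continuous_const.mul continuous_id)).tendsto _).comp h0
  have l3 := l1.sub l2
  rw [h4, sub_self] at l3
  exact l3

/-- The elements which commute with `H` are block triangular. -/
theorem tr_of_comm {g : G0} (h : mx g * H = H * mx g) : Tr D.h (D.co (mx g)) := fun i j hij => (D.comm_iff.1 h) i j hij.ne

theorem comm_inv {g : G0} (h : mx g * H = H * mx g) : mx g⁻¹ * H = H * mx g⁻¹ := by
  calc mx g⁻¹ * H = mx g⁻¹ * (H * mx g) * mx g⁻¹ := by rw [Matrix.mul_assoc, Matrix.mul_assoc, mx_mul_inv, Matrix.mul_one]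
    _ = mx g⁻¹ * (mx g * H) * mx g⁻¹ := by rw [h]
    _ = _ := by rw [← Matrix.mul_assoc (mx g⁻¹), mx_inv_mul, Matrix.one_mul]

/-- **The functions on `G0 / Q` are uniformly continuous functions of the position.** -/
theorem uc (hG : IsClosed (G0 : Set (GL (Fin N) ℝ))) {f : G0 → ℂ} (hfc : Continuous f)
    (hfi : ∀ g q : G0, Tr D.h (D.co (mx q)) → f (g * q) = f g) : UC pd fun γ => f (F.gf γ) := by
  have e1 : ∀ γ, f (F.gf γ) = f (F.kR γ)⁻¹ := fun γ => hfi _ _ (tr_of_comm (comm_inv (F.MH γ)))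
  by_contra hne
  unfold UC at hne
  push Not at hne
  obtain ⟨ε, hε, h'⟩ := hne
  have h' : ∀ n : ℕ, ∃ γ γ' : G, pd.d γ γ' < 1 / ((n : ℝ) + 1) ∧ ε < ‖f (F.gf γ) - f (F.gf γ')‖ := fun n =>
    h' _ (by positivity)
  choose u v huv huv' using h'
  let l : Ultrafilter ℕ := hyperfilter ℕ
  have hcp : ∀ x : ℕ → G, ∃ κ : G0, (mx κ)ᵀ * mx κ = 1 ∧ Tendsto (fun n => F.kR (x n)) l (𝓝 κ) := by
    intro x
    obtain ⟨κ, h1, h2⟩ := (isCompact_KG0 hG).ultrafilter_le_nhds (l.map fun n => F.kR (x n)) (by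
      rw [le_principal_iff]
      have h1 : ∀ᶠ n in (l : Filter ℕ), F.kR (x n) ∈ {k : G0 | (mx k)ᵀ * mx k = 1} := Eventually.of_forall fun n => F.oR _
      exact h1)
    exact ⟨κ, h1, h2⟩
  obtain ⟨κ0, -, h0⟩ := hcp u
  obtain ⟨κ1, -, h1⟩ := hcp v
  have hd : Tendsto (fun n => pd.d (u n) (v n)) (l : Filter ℕ) (𝓝 0) := by
    have h1 : Tendsto (fun n : ℕ => 1 / ((n : ℝ) + 1)) (l : Filter ℕ) (𝓝 0) :=
      tendsto_one_div_add_atTop_nhds_zero_nat.mono_left Nat.hyperfilter_le_atTop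
    exact squeeze_zero (fun n => Pool.Agent.Helper78.BM.d_nonneg _ _ _) (fun n => (huv n).le) h1
  have hq := F.pos l u v _ hd (h0.mul h1.inv)
  have l0 : Tendsto (fun n => f (F.gf (u n))) l (𝓝 (f κ0⁻¹)) := by
    simp only [e1]
    exact (hfc.tendsto _).comp h0.inv
  have l1 : Tendsto (fun n => f (F.gf (v n))) l (𝓝 (f κ1⁻¹)) := by
    simp only [e1]
    exact (hfc.tendsto _).comp h1.inv
  have h3 : f κ0⁻¹ = f κ1⁻¹ := by
    have h4 := hfi κ0⁻¹ _ hq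
    have h5 : κ0⁻¹ * (κ0 * κ1⁻¹) = κ1⁻¹ := by group
    rw [h5] at h4
    exact h4.symm
  have l3 := (l0.sub l1).norm
  rw [h3, sub_self, norm_zero] at l3
  exact absurd (ge_of_tendsto l3 (Eventually.of_forall fun n => (huv' n).le)) (not_le.2 hε)

/-- **The frames.** -/
noncomputable def frm (hG : IsClosed (G0 : Set (GL (Fin N) ℝ))) (geo : Geo G0 𝕊 𝕂) (hQ : ∀ g : G0, g ∈ geo.Q ↔ Tr D.h (D.co (mx g)))
    (hK : ∀ q : geo.Q, (∃ (u : Mat N) (s : ℝ), uᵀ * u = 1 ∧ (∀ i j, D.h i ≠ D.h j → u i j = 0) ∧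
      ∀ i j, D.h i = D.h j → D.co (mx (q : G0)) i j = Real.exp (s * D.h i) * u i j) → geo.nb q ∈ 𝕂) :
    FrmR geo R pd where
  ir := F.ir
  gf := F.gf
  cov f hf k n := F.cov hG hf.cont (fun g q h1 h2 => hf.inv g ⟨q, (hQ q).2 h1⟩ (hK ⟨q, (hQ q).2 h1⟩ h2)) k n
  av f hf := by
    obtain ⟨C, hC⟩ := yf_bdd hf
    exact AV.of_uc (F.uc hG hf.cont fun g q h1 => hf.inv g ⟨q, (hQ q).2 h1⟩) fun γ => hC _
  cpt n := by
    obtain ⟨C, hC, h⟩ := F.gf_cpt hG n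
    exact ⟨_, hC.image (geo.nbc.comp geo.rc), fun γ hγ => ⟨_, h γ hγ, rfl⟩⟩

end FrD

end Pool.Agent.Helper78.FQ
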