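import Pool.Agent.Helper78.FQ.Tz

/-!
# Project FQ (MP_0f6f3f_an), layer TZ: the gaps of the block

`gp : SS h hA H → ι → ℝ`: the gaps of the elements of the block group at the node `j` (`gp g j = 0`). `gp_kak`: Cartan decomposition. `gp_shift`: coarse invariance. `gp_eaM`.
-/

set_option autoImplicit false
set_option linter.unusedSectionVars false

open Filter Topology Matrix Pointwise

namespace Pool.Agent.Helper78.FQ

open Pool.Agent.Helper96.SA Pool.Agent.Helper96.TO Pool.Agent.Helper90.RK Pool.Agent.Helper84.NI Pool.Agent.Helper69.SLN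
open Pool.Agent.Helper84 Pool.Agent.Helper84.GN Pool.Agent.Helper84.GN.S3
open Pool.Agent.Helper35.FP Pool.Agent.Helper35.TZ Pool.Agent.Helper2.BC
open Pool.Agent.Helper84.GDL (GD)
open Pool.Agent.Helper87.FQ (Mh mem_Mh mem_Mh_iff lsub SS rsS ti ti_eq_self selfAdj_autC rsS_exH exH_mem rsS_mem_KS exists_ker surjective_rsS continuous_rsS
  isOpenMap_rsS)

/-- Compact sets lift along open surjective maps. -/
theorem exists_lift {X Z : Type} [TopologicalSpace X] [LocallyCompactSpace X] [TopologicalSpace Z] {f : X → Z} (ho : IsOpenMap f)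
    (hs : Function.Surjective f) {B : Set Z} (hB : IsCompact B) : ∃ B' : Set X, IsCompact B' ∧ B ⊆ f '' B' := by
  have h1 : ∀ z : Z, ∃ K : Set X, IsCompact K ∧ f '' K ∈ 𝓝 z := by
    intro z
    obtain ⟨x, rfl⟩ := hs z
    obtain ⟨K, hK, hx⟩ := exists_compact_mem_nhds x
    exact ⟨K, hK, ho.image_mem_nhds hx⟩
  choose K hK hz using h1
  obtain ⟨t, -, ht⟩ := hB.elim_nhds_subcover (fun z => f '' K z) fun z _ => hz z
  refine ⟨⋃ z ∈ t, K z, t.isCompact_biUnion fun z _ => hK z, ht.trans ?_⟩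
  rw [Set.image_iUnion₂]

section Ex

variable {N : ℕ}

theorem comm_of_ex {Y : Mat N} (hY : Yᵀ = Y) {g : Mat N} (hg : g * (ex Y : Mat N) = (ex Y : Mat N) * g) : g * Y = Y * g := by
  obtain ⟨D⟩ := exists_dg hY
  rw [D.comm_iff]
  intro i k hik
  have h2 := congrArg (fun g : Mat N => D.co g i k) hg
  have h3 : D.co (ex Y : Mat N) = diagonal fun i => Real.exp (D.h i) := by
    have h4 := D.co_ex 1
    rw [one_smul] at h4
    rw [h4]
    congr 1
    funext i
    rw [one_mul]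
  simp only [D.co_mul, h3] at h2
  rw [mul_diagonal, diagonal_mul] at h2
  have h4 : (Real.exp (D.h i) - Real.exp (D.h k)) * D.co g i k = 0 := by linarith
  exact (mul_eq_zero.1 h4).resolve_left fun h => hik (Real.exp_injective (sub_eq_zero.1 h))

end Ex

variable {L : Type} [LieRing L] [LieAlgebra ℝ L] {N : ℕ} {θ : L ≃ₗ⁅ℝ⁆ L} {b : Module.Basis (Fin N) ℝ L} {A : Submodule ℝ L}
  {ι : Type} [Fintype ι] [DecidableEq ι]

/-- Compatibility of the group data with `H` at the node `j`. -/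
structure Cq (Δ : GD (autC b) ι) (j : ι) (H : A) : Prop where
  orth : ∀ k : autC b, k ∈ Δ.K ↔ (mx k)ᵀ * mx k = 1
  ea : ∀ t : ℝ, (Δ.ea (Pi.single j t) : GL (Fin N) ℝ) = ex (t • TT_to b (H : L))

variable {Δ : GD (autC b) ι} {j : ι} {H : A}

theorem Cq.cp (c : Cq Δ j H) : Cp Δ j ((-1 : ℝ) • TT_to b (H : L)) where
  orth k hk := (c.orth k).1 hk
  ea t := by rw [c.ea, ← ex_neg, smul_smul, mul_neg_one, neg_smul, neg_neg]

/-- The inclusion of the centraliser of `H`. -/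
noncomputable def inM (b : Module.Basis (Fin N) ℝ L) (H : L) : Mh b H →* autC b where
  toFun m := ⟨m, m.2.1⟩
  map_one' := rfl
  map_mul' _ _ := rfl

theorem inM_coe (m : Mh b (H : L)) : ((inM b (H : L) m : autC b) : GL (Fin N) ℝ) = m := rfl

theorem continuous_inM : Continuous (inM b (H : L)) := continuous_subtype_val.subtype_mk _

theorem mu_mul_K (Δ : GD (autC b) ι) {g k : autC b} (hk : k ∈ Δ.K) : Δ.mu (g * k) = Δ.mu g := by
  have h1 : g * k = Δ.kL g * Δ.ea (Δ.mu g) * (Δ.kR g * k) := by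
    rw [← mul_assoc]
    conv_lhs => rw [Δ.kak g]
  rw [h1]
  exact Δ.mu_kak (Δ.kL_mem g) (Δ.K.mul_mem (Δ.kR_mem g) hk) (Δ.mu_nonneg g)

include b in
theorem comm_ea (h : CartanBasis θ b) (c : Cq Δ j H) (m : Mh b (H : L)) (t : ℝ) :
    inM b (H : L) m * Δ.ea (Pi.single j t) = Δ.ea (Pi.single j t) * inM b (H : L) m := by
  apply Subtype.ext
  rw [Subgroup.coe_mul, Subgroup.coe_mul, c.ea, inM_coe]
  refine ex_commute ?_
  rw [Matrix.mul_smul, Matrix.smul_mul, ((mem_Mh_iff h).1 m.2).2]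

theorem mem_Mh_of (h : CartanBasis θ b) (hA : MaxFlat θ A) (c : Cq Δ j H) {g : autC b}
    (hg : g * Δ.ea (Pi.single j 1) = Δ.ea (Pi.single j 1) * g) : (g : GL (Fin N) ℝ) ∈ Mh b (H : L) := by
  refine (mem_Mh_iff h).2 ⟨g.2, comm_of_ex ((TT_symm_iff_to h (H : L)).2 (hA.neg _ H.2)) ?_⟩
  have h1 := congrArg (fun g : autC b => (((g : autC b) : GL (Fin N) ℝ) : Mat N)) hg
  have h2 : ((Δ.ea (Pi.single j 1) : autC b) : GL (Fin N) ℝ) = ex (TT_to b (H : L)) := by rw [c.ea, one_smul]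
  change ((g : autC b) : GL (Fin N) ℝ).val * ((Δ.ea (Pi.single j 1) : autC b) : GL (Fin N) ℝ).val =
    ((Δ.ea (Pi.single j 1) : autC b) : GL (Fin N) ℝ).val * ((g : autC b) : GL (Fin N) ℝ).val at h1
  rw [h2] at h1
  exact h1

/-- The elements of the flat in the centraliser of `H`. -/
noncomputable def eaM (h : CartanBasis θ b) (hA : MaxFlat θ A) (c : Cq Δ j H) (v : ι → ℝ) : Mh b (H : L) :=
  ⟨Δ.ea v, mem_Mh_of h hA c (Δ.ea_comm _ _)⟩

section Gap

variable (h : CartanBasis θ b) (hA : MaxFlat θ A) (c : Cq Δ j H)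

theorem inM_eaM (v : ι → ℝ) : inM b (H : L) (eaM h hA c v) = Δ.ea v := rfl

theorem eaM_add (v w : ι → ℝ) : eaM h hA c (v + w) = eaM h hA c v * eaM h hA c w :=
  Subtype.ext (congrArg (Subtype.val : autC b → GL (Fin N) ℝ) (Δ.ea_add v w))

theorem rsS_single (t : ℝ) : rsS h hA H (eaM h hA c (Pi.single j t)) = 1 := by
  have h1 : eaM h hA c (Pi.single j t) = ⟨ex (t • TT_to b (H : L)), exH_mem b H t⟩ := Subtype.ext (c.ea t)
  rw [h1, rsS_exH]

/-- **The Cartan decomposition of the centraliser.** -/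
theorem exists_gm (m : Mh b (H : L)) : ∃ v : ι → ℝ, v j = 0 ∧ (∀ i, 0 ≤ v i) ∧
    (∀ᶠ T : ℝ in atTop, ∀ i, i ≠ j → Δ.mu (Δ.ea (Pi.single j T) * inM b (H : L) m) i = v i) ∧
    ∃ k1 k2 : Mh b (H : L), ti (k1 : GL (Fin N) ℝ) = k1 ∧ ti (k2 : GL (Fin N) ℝ) = k2 ∧ ∃ s : ℝ,
      m = k1 * eaM h hA c v * eaM h hA c (Pi.single j s) * k2 := by
  obtain ⟨k1, hk1, k2, hk2, w, hw, hm, hcm⟩ := Δ.lev {j} (inM b (H : L) m) (by
    intro c' hc'
    have h1 : c' = Pi.single j (c' j) := by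
      funext i
      by_cases hi : i = j
      · rw [hi, Pi.single_eq_same]
      · rw [Pi.single_eq_of_ne hi, hc' i (by simpa using hi)]
    rw [h1]
    exact comm_ea h c m _)
  have hc1 := hcm (Pi.single j 1) (fun i hi => Pi.single_eq_of_ne (by simpa using hi) _)
  have m1 := mem_Mh_of h hA c hc1.1
  have m2 := mem_Mh_of h hA c hc1.2
  refine ⟨w - Pi.single j (w j), by rw [Pi.sub_apply, Pi.single_eq_same, sub_self], fun i => ?_, ?_, ⟨k1, m1⟩, ⟨k2, m2⟩,
    ti_eq_self.2 ((c.orth k1).1 hk1), ti_eq_self.2 ((c.orth k2).1 hk2), w j, ?_⟩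
  · by_cases hi : i = j
    · rw [hi, Pi.sub_apply, Pi.single_eq_same, sub_self]
    · rw [Pi.sub_apply, Pi.single_eq_of_ne hi, sub_zero]
      exact hw i (by simpa using hi)
  · filter_upwards [eventually_ge_atTop (-w j)] with T hT i hi
    have h2 : Δ.ea (Pi.single j T) * inM b (H : L) m = k1 * Δ.ea (w + Pi.single j T) * k2 := by
      have h3 : Δ.ea (Pi.single j T) * k1 = k1 * Δ.ea (Pi.single j T) := (comm_ea h c (⟨k1, m1⟩ : Mh b (H : L)) T).symm
      rw [hm, ← mul_assoc, ← mul_assoc, h3, mul_assoc k1, ← Δ.ea_add, add_comm]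
    rw [h2, Δ.mu_kak hk1 hk2, Pi.add_apply, Pi.sub_apply, Pi.single_eq_of_ne hi, Pi.single_eq_of_ne hi, add_zero, sub_zero]
    intro i
    by_cases hi : i = j
    · rw [hi, Pi.add_apply, Pi.single_eq_same]
      linarith
    · rw [Pi.add_apply, Pi.single_eq_of_ne hi, add_zero]
      exact hw i (by simpa using hi)
  · apply Subtype.ext
    have h3 := congrArg (Subtype.val : autC b → GL (Fin N) ℝ) hm
    have h4 : Δ.ea w = Δ.ea (w - Pi.single j (w j)) * Δ.ea (Pi.single j (w j)) := by rw [← Δ.ea_add, sub_add_cancel]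
    rw [h4] at h3
    refine h3.trans ?_
    simp only [Subgroup.coe_mul, eaM, mul_assoc]

/-- The gaps of the elements of the centraliser. -/
noncomputable def gm (m : Mh b (H : L)) : ι → ℝ := (exists_gm h hA c m).choose

theorem gm_j (m : Mh b (H : L)) : gm h hA c m j = 0 := (exists_gm h hA c m).choose_spec.1

theorem gm_nonneg (m : Mh b (H : L)) (i : ι) : 0 ≤ gm h hA c m i := (exists_gm h hA c m).choose_spec.2.1 i

theorem gm_mu (m : Mh b (H : L)) : ∀ᶠ T : ℝ in atTop, ∀ i, i ≠ j → Δ.mu (Δ.ea (Pi.single j T) * inM b (H : L) m) i = gm h hA c m i :=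
  (exists_gm h hA c m).choose_spec.2.2.1

theorem gm_kak (m : Mh b (H : L)) : ∃ k1 k2 : Mh b (H : L), ti (k1 : GL (Fin N) ℝ) = k1 ∧ ti (k2 : GL (Fin N) ℝ) = k2 ∧ ∃ s : ℝ,
      m = k1 * eaM h hA c (gm h hA c m) * eaM h hA c (Pi.single j s) * k2 := (exists_gm h hA c m).choose_spec.2.2.2

theorem gm_unique {m : Mh b (H : L)} {v : ι → ℝ} (hv : v j = 0)
    (hmu : ∀ᶠ T : ℝ in atTop, ∀ i, i ≠ j → Δ.mu (Δ.ea (Pi.single j T) * inM b (H : L) m) i = v i) : gm h hA c m = v := by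
  obtain ⟨T, h1, h2⟩ := (hmu.and (gm_mu h hA c m)).exists
  funext i
  by_cases hi : i = j
  · rw [hi, gm_j, hv]
  · rw [← h1 i hi, h2 i hi]

theorem gm_ker {m k : Mh b (H : L)} (hk : ti (k : GL (Fin N) ℝ) = k) (t : ℝ) :
    gm h hA c (m * (k * eaM h hA c (Pi.single j t))) = gm h hA c m := by
  refine gm_unique h hA c (gm_j h hA c m) ?_
  have h1 := (tendsto_atTop_add_const_right atTop t (tendsto_id (α := ℝ))).eventually (gm_mu h hA c m)
  filter_upwards [h1] with T hT i hi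
  have hkK : inM b (H : L) k ∈ Δ.K := (c.orth _).2 (ti_eq_self.1 hk)
  have h2 : Δ.ea (Pi.single j T) * inM b (H : L) (m * (k * eaM h hA c (Pi.single j t))) =
      Δ.ea (Pi.single j (id T + t)) * inM b (H : L) m * inM b (H : L) k := by
    rw [map_mul, map_mul, inM_eaM, Pi.single_add, Δ.ea_add, comm_ea h c k t]
    calc Δ.ea (Pi.single j T) * (inM b (H : L) m * (Δ.ea (Pi.single j t) * inM b (H : L) k))
        = Δ.ea (Pi.single j T) * (inM b (H : L) m * Δ.ea (Pi.single j t)) * inM b (H : L) k := by simp only [mul_assoc]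
      _ = Δ.ea (Pi.single j T) * (Δ.ea (Pi.single j t) * inM b (H : L) m) * inM b (H : L) k := by rw [comm_ea h c m t]
      _ = _ := by simp only [mul_assoc, id]
  rw [h2, mu_mul_K Δ hkK]
  exact hT i hi

/-- The gaps of the block. -/
noncomputable def gp (g : SS h hA H) : ι → ℝ := gm h hA c (Function.surjInv (surjective_rsS h hA H) g)

variable (hH : ∀ x : A, (∀ φ ∈ rootsL A, φ H = 0 → φ x = 0) → ∃ c : ℝ, x = c • H)

include hH in
theorem gp_rsS (m : Mh b (H : L)) : gp h hA c (rsS h hA H m) = gm h hA c m := by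
  unfold gp
  obtain ⟨m', hm'⟩ : ∃ m', m' = Function.surjInv (surjective_rsS h hA H) (rsS h hA H m) := ⟨_, rfl⟩
  rw [← hm']
  have h1 : rsS h hA H m' = rsS h hA H m := by rw [hm']; exact Function.surjInv_eq _ _
  have h2 : rsS h hA H (m⁻¹ * m') = 1 := by rw [map_mul, map_inv, h1, inv_mul_cancel]
  obtain ⟨k, hk, -, t, ht⟩ := exists_ker h hA H hH h2
  have h3 : m' = m * (k * eaM h hA c (Pi.single j t)) := by
    rw [← inv_mul_eq_iff_eq_mul]
    apply Subtype.ext
    rw [ht, Subgroup.coe_mul]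
    congr 1
    exact (c.ea t).symm
  rw [h3, gm_ker h hA c hk]

theorem gp_j (g : SS h hA H) : gp h hA c g j = 0 := gm_j h hA c _

theorem gp_nonneg (g : SS h hA H) (i : ι) : 0 ≤ gp h hA c g i := gm_nonneg h hA c _ i

/-- **The Cartan decomposition of the block group.** -/
theorem gp_kak (g : SS h hA H) : ∃ k1 ∈ Pool.Agent.Helper87.FQ.KS h hA H, ∃ k2 ∈ Pool.Agent.Helper87.FQ.KS h hA H,
    g = k1 * rsS h hA H (eaM h hA c (gp h hA c g)) * k2 := by
  obtain ⟨k1, k2, hk1, hk2, s, hs⟩ := gm_kak h hA c (Function.surjInv (surjective_rsS h hA H) g)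
  refine ⟨rsS h hA H k1, rsS_mem_KS h hA H hk1, rsS h hA H k2, rsS_mem_KS h hA H hk2, ?_⟩
  have h1 := congrArg (rsS h hA H) hs
  rw [Function.surjInv_eq (surjective_rsS h hA H) g, map_mul, map_mul, map_mul, rsS_single, mul_one] at h1
  exact h1

include hH in
theorem gp_eaM {v : ι → ℝ} (hv : v j = 0) (hv0 : ∀ i, 0 ≤ v i) : gp h hA c (rsS h hA H (eaM h hA c v)) = v := by
  rw [gp_rsS h hA c hH]
  refine gm_unique h hA c hv ?_
  filter_upwards [eventually_ge_atTop 0] with T hT i hi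
  rw [inM_eaM, ← Δ.ea_add, Δ.mu_ea, Pi.add_apply, Pi.single_eq_of_ne hi, zero_add]
  intro i
  rw [Pi.add_apply]
  by_cases hi : i = j
  · rw [hi, Pi.single_eq_same, hv, add_zero]
    exact hT
  · rw [Pi.single_eq_of_ne hi, zero_add]
    exact hv0 i

include hH in
/-- **Coarse invariance of the gaps.** -/
theorem gp_shift {B : Set (SS h hA H)} (hB : IsCompact B) : ∃ C : ℝ, 0 ≤ C ∧ ∀ x ∈ B, ∀ x' ∈ B, ∀ y i,
    |gp h hA c (x * y * x') i - gp h hA c y i| ≤ C := by
  obtain ⟨B', hB', hBB⟩ := exists_lift (isOpenMap_rsS h hA H) (surjective_rsS h hA H) hB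
  obtain ⟨C, hC0, hC⟩ := Δ.mu_shift (hB'.image (continuous_inM (b := b) (H := H)))
  refine ⟨C, hC0, fun x hx x' hx' y i => ?_⟩
  obtain ⟨m, hm, rfl⟩ := hBB hx
  obtain ⟨m', hm', rfl⟩ := hBB hx'
  obtain ⟨n, rfl⟩ := surjective_rsS h hA H y
  rw [← map_mul, ← map_mul, gp_rsS h hA c hH, gp_rsS h hA c hH]
  by_cases hi : i = j
  · rw [hi, gm_j, gm_j, sub_self, abs_zero]
    exact hC0
  · obtain ⟨T, h1, h2⟩ := ((gm_mu h hA c (m * n * m')).and (gm_mu h hA c n)).exists
    rw [← h1 i hi, ← h2 i hi, map_mul, map_mul]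
    have h3 : Δ.ea (Pi.single j T) * (inM b (H : L) m * inM b (H : L) n * inM b (H : L) m') =
        inM b (H : L) m * (Δ.ea (Pi.single j T) * inM b (H : L) n) * inM b (H : L) m' := by
      calc Δ.ea (Pi.single j T) * (inM b (H : L) m * inM b (H : L) n * inM b (H : L) m')
          = (Δ.ea (Pi.single j T) * inM b (H : L) m) * inM b (H : L) n * inM b (H : L) m' := by simp only [mul_assoc]
        _ = (inM b (H : L) m * Δ.ea (Pi.single j T)) * inM b (H : L) n * inM b (H : L) m' := by rw [comm_ea h c m T]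
        _ = _ := by simp only [mul_assoc]
    rw [h3]
    exact hC _ ⟨m, hm, rfl⟩ _ ⟨m', hm', rfl⟩ _ i

end Gap

end Pool.Agent.Helper78.FQ
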