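import Pool.Agent.Helper78.FQ.Am
import Pool.Agent.Helper46.FQ.Glue
import Pool.Agent.Helper84.GD.Basic

/-!
# Project FQ (MP_0f6f3f_an), layer TZ: frames from the group data

`abs_det_autG`: automorphisms have determinant `± 1`. `phR`: the proper representation in the coordinates of a diagonalisation. `frGD`: the frames given by the group data at a node.
-/

set_option autoImplicit false
set_option linter.unusedSectionVars false

open Filter Topology Matrix Pointwise

namespace Pool.Agent.Helper78.FQ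

open Pool.Agent.Helper96.SA Pool.Agent.Helper90.RK Pool.Agent.Helper84.NI
open Pool.Agent.Helper84 Pool.Agent.Helper84.GN Pool.Agent.Helper84.GN.S3
open Pool.Agent.Helper35.FP Pool.Agent.Helper35.TZ Pool.Agent.Helper2.BC

section Det

variable {L : Type} [LieRing L] [LieAlgebra ℝ L] {N : ℕ} {θ : L ≃ₗ⁅ℝ⁆ L} {b : Module.Basis (Fin N) ℝ L}

theorem abs_det_autG (h : CartanBasis θ b) {g : GL (Fin N) ℝ} (hg : g ∈ autG b) : |(g : Mat N).det| = 1 := by
  classical
  obtain ⟨K, hK⟩ : ∃ K : Mat N, K = LinearMap.BilinForm.toMatrix b (killingForm ℝ L) := ⟨_, rfl⟩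
  have h1 : (g : Mat N)ᵀ * K * (g : Mat N) = K := by
    have h2 := LinearMap.BilinForm.toMatrix_comp b b (killingForm ℝ L) (Matrix.toLin b b (g : Mat N)) (Matrix.toLin b b (g : Mat N))
    rw [LinearMap.toMatrix_toLin] at h2
    rw [hK, ← h2]
    congr 1
    ext x y
    exact kill_ac hg x y
  have h3 : K * LinearMap.toMatrix b b (θ : L →ₗ[ℝ] L) = -1 := by
    have h4 := LinearMap.BilinForm.toMatrix_compRight b (killingForm ℝ L) (θ : L →ₗ[ℝ] L)
    rw [hK, ← h4]
    ext i j
    rw [LinearMap.BilinForm.toMatrix_apply]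
    have h5 := h.orth i j
    rw [Matrix.neg_apply, Matrix.one_apply]
    change killingForm ℝ L (b i) (θ (b j)) = _
    rw [← h5]
    ring
  have h4 : K.det ≠ 0 := by
    intro h0
    have h5 := congrArg Matrix.det h3
    rw [Matrix.det_mul, h0, zero_mul, Matrix.det_neg, Matrix.det_one, mul_one] at h5
    exact pow_ne_zero _ (by norm_num) h5.symm
  have h5 := congrArg Matrix.det h1
  rw [Matrix.det_mul, Matrix.det_mul, Matrix.det_transpose] at h5
  have h6 : (g : Mat N).det * (g : Mat N).det = 1 := by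
    have h7 : K.det * ((g : Mat N).det * (g : Mat N).det - 1) = 0 := by linarith
    linarith [(mul_eq_zero.1 h7).resolve_left h4]
  have h7 : |(g : Mat N).det| * |(g : Mat N).det| = 1 := by rw [← abs_mul, h6, abs_one]
  nlinarith [abs_nonneg (g : Mat N).det]

end Det

variable {N : ℕ} {G0 : Subgroup (GL (Fin N) ℝ)}

section PHs

theorem isCompact_bdd (hG : IsClosed (G0 : Set (GL (Fin N) ℝ))) (hdet : ∀ g : G0, |(mx g).det| = 1) (R : ℝ) :
    IsCompact {g : G0 | ∀ i j, |mx g i j| ≤ R} := by
  have h1 : IsCompact {A : Mat N | ∀ i j, |A i j| ≤ R} := by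
    have h : IsCompact (Set.univ.pi fun _ : Fin N => (Set.univ.pi fun _ : Fin N => Metric.closedBall (0 : ℝ) R)) :=
      isCompact_univ_pi fun _ => isCompact_univ_pi fun _ => isCompact_closedBall 0 R
    have e : (Set.univ.pi fun _ : Fin N => (Set.univ.pi fun _ : Fin N => Metric.closedBall (0 : ℝ) R)) =
        {A : Fin N → Fin N → ℝ | ∀ i j, |A i j| ≤ R} := by
      ext A
      simp only [Set.mem_univ_pi, mem_closedBall_zero_iff, Set.mem_ofPred_eq, Real.norm_eq_abs]
    rw [e] at h
    exact h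
  have h2 : IsClosed {A : Mat N | |A.det| = 1} := isClosed_eq (continuous_abs.comp (continuous_id.matrix_det)) continuous_const
  have h3 : IsCompact {g : GL (Fin N) ℝ | (∀ i j, |(g : Mat N) i j| ≤ R) ∧ |(g : Mat N).det| = 1} := by
    rw [(isEmbedding_val (N := N)).isInducing.isCompact_iff]
    have e : (fun g : GL (Fin N) ℝ => (g : Mat N)) ''
        {g : GL (Fin N) ℝ | (∀ i j, |(g : Mat N) i j| ≤ R) ∧ |(g : Mat N).det| = 1} =
        {A : Mat N | ∀ i j, |A i j| ≤ R} ∩ {A : Mat N | |A.det| = 1} := by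
      ext A
      constructor
      · rintro ⟨g, hg, rfl⟩
        exact hg
      · rintro ⟨hA1, hA2⟩
        have hA2 : |A.det| = 1 := hA2
        have hdet : IsUnit A.det := by
          rw [isUnit_iff_ne_zero]
          intro h0
          rw [h0, abs_zero] at hA2
          exact zero_ne_one hA2
        obtain ⟨g, hg⟩ := (Matrix.isUnit_iff_isUnit_det A).2 hdet
        refine ⟨g, ?_, hg⟩
        subst hg
        exact ⟨hA1, hA2⟩
    rw [e]
    exact h1.inter_right h2
  have h4 := hG.isClosedEmbedding_subtypeVal.isCompact_preimage h3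
  refine h4.of_isClosed_subset ?_ fun g hg => ⟨hg, hdet g⟩
  have e : {g : G0 | ∀ i j, |mx g i j| ≤ R} = ⋂ i, ⋂ j, {g : G0 | |mx g i j| ≤ R} := by
    ext g
    simp
  rw [e]
  exact isClosed_iInter fun i => isClosed_iInter fun j => isClosed_le (continuous_abs.comp (continuous_mx.matrix_elem i j)) continuous_const

variable {H : Mat N} (D : Dg H)

/-- The proper representation in the coordinates `D`. -/
noncomputable def phR (hG : IsClosed (G0 : Set (GL (Fin N) ℝ))) (hdet : ∀ g : G0, |(mx g).det| = 1) {G : Type} [Group G] (ir : G →* G0)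
    (hir : ∀ B : Set G0, IsCompact B → (ir ⁻¹' B).Finite) : PH G N where
  ι g := cx D (ir g)
  det1 g := by
    have h1 : (cx D (ir g)).det = (((D.co (mx (ir g))).det : ℝ) : ℂ) := (RingHom.map_det Complex.ofRealHom (D.co (mx (ir g)))).symm
    have h2 : (D.co (mx (ir g))).det = (mx (ir g)).det := by
      unfold Dg.co
      rw [Matrix.det_mul, Matrix.det_mul, mul_comm, ← mul_assoc, ← Matrix.det_mul, D.UU', Matrix.det_one, one_mul]
    rw [h1, h2, Complex.norm_real, Real.norm_eq_abs, hdet]
  mul' g h := ⟨1, norm_one, by rw [one_smul, map_mul, cx_mul]⟩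
  fin R := by
    obtain ⟨B, hB, hBR⟩ : ∃ B : Set G0, IsCompact B ∧ ∀ g : G0, ns (cx D g) ≤ R → g ∈ B := by
      have h1 : IsCompact {A : Mat N | ∀ i j, |A i j| ≤ Real.sqrt R} := by
        have h : IsCompact (Set.univ.pi fun _ : Fin N => (Set.univ.pi fun _ : Fin N => Metric.closedBall (0 : ℝ) (Real.sqrt R))) :=
          isCompact_univ_pi fun _ => isCompact_univ_pi fun _ => isCompact_closedBall 0 _
        have e : (Set.univ.pi fun _ : Fin N => (Set.univ.pi fun _ : Fin N => Metric.closedBall (0 : ℝ) (Real.sqrt R))) =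
            {A : Fin N → Fin N → ℝ | ∀ i j, |A i j| ≤ Real.sqrt R} := by
          ext A
          simp only [Set.mem_univ_pi, mem_closedBall_zero_iff, Set.mem_ofPred_eq, Real.norm_eq_abs]
        rw [e] at h
        exact h
      have h2 := h1.image (f := fun A : Mat N => D.U * A * D.Uᵀ) (by fun_prop)
      have h3 : ∀ i j : Fin N, ∃ C : ℝ, ∀ A ∈ (fun A : Mat N => D.U * A * D.Uᵀ) '' {A : Mat N | ∀ i j, |A i j| ≤ Real.sqrt R}, |A i j| ≤ C := by
        intro i j
        obtain ⟨C, hC⟩ := (h2.image (f := fun A : Mat N => |A i j|) (continuous_abs.comp (continuous_id.matrix_elem i j))).bddAbove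
        exact ⟨C, fun A hA => hC ⟨A, hA, rfl⟩⟩
      choose C hC using h3
      refine ⟨_, isCompact_bdd hG hdet (∑ i, ∑ j, |C i j|), fun g hg i j => ?_⟩
      have h4 : ∀ i j, |D.co (mx g) i j| ≤ Real.sqrt R := by
        intro i j
        have h5 : ‖cx D g i j‖ ^ 2 ≤ ns (cx D g) := by
          unfold ns
          refine (Finset.single_le_sum (f := fun j => ‖cx D g i j‖ ^ 2) (fun _ _ => sq_nonneg _) (Finset.mem_univ j)).trans ?_
          exact Finset.single_le_sum (f := fun i => ∑ j, ‖cx D g i j‖ ^ 2) (fun _ _ => Finset.sum_nonneg fun _ _ => sq_nonneg _) (Finset.mem_univ i)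
        rw [cx_apply, Complex.norm_real, Real.norm_eq_abs] at h5
        exact Real.le_sqrt_of_sq_le (h5.trans hg)
      have h5 : D.U * D.co (mx g) * D.Uᵀ = mx g := by
        unfold Dg.co
        calc D.U * (D.Uᵀ * mx g * D.U) * D.Uᵀ = (D.U * D.Uᵀ) * mx g * (D.U * D.Uᵀ) := by simp only [Matrix.mul_assoc]
          _ = mx g := by rw [D.UU', Matrix.one_mul, Matrix.mul_one]
      refine (hC i j (mx g) ⟨D.co (mx g), h4, h5⟩).trans ((le_abs_self _).trans ?_)
      refine (Finset.single_le_sum (f := fun j => |C i j|) (fun _ _ => abs_nonneg _) (Finset.mem_univ j)).trans ?_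
      exact Finset.single_le_sum (f := fun i => ∑ j, |C i j|) (fun _ _ => Finset.sum_nonneg fun _ _ => abs_nonneg _) (Finset.mem_univ i)
    exact (hir B hB).subset fun g hg => hBR _ hg

end PHs

end Pool.Agent.Helper78.FQ
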