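import Pool.Agent.Helper78.FQ.Fg

/-!
# Project FQ (MP_0f6f3f_an), layer TZ: the geometry of `Aut(L)` in the coordinates of a diagonalisation

`mem_Q_iff`, `nb_mem_K`, `nb_ker`: the hypotheses of `FrD.frm` and `amnR` for `geoS`.
-/

set_option autoImplicit false
set_option linter.unusedSectionVars false

open Filter Topology Matrix Pointwise

namespace Pool.Agent.Helper78.FQ

open Pool.Agent.Helper96.SA Pool.Agent.Helper96.TO Pool.Agent.Helper90.RK Pool.Agent.Helper84.NI Pool.Agent.Helper69.SLN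
open Pool.Agent.Helper84 Pool.Agent.Helper84.GN Pool.Agent.Helper84.GN.S3
open Pool.Agent.Helper35.FP Pool.Agent.Helper35.TZ Pool.Agent.Helper2.BC
open Pool.Agent.Helper84.GDL (GD)
open Pool.Agent.Helper46.FQ (cj Pg Dh mem_Pg_iff Qg toPg toPg_coe geoS geoS_Q geoS_nb nbS nbS_mem_KS nbS_ker Dh_coe bd bd_apply Y_symm Dh_commute Dh_of_commute
  mem_Pg_of_commute)
open Pool.Agent.Helper87.FQ (Mh mem_Mh mem_Mh_iff lsub SS rsS ti ti_eq_self selfAdj_autC)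

variable {L : Type} [LieRing L] [LieAlgebra ℝ L] {N : ℕ} {θ : L ≃ₗ⁅ℝ⁆ L} {b : Module.Basis (Fin N) ℝ L} {A : Submodule ℝ L}

variable (h : CartanBasis θ b) (hA : MaxFlat θ A) (H : A) {Y : Mat N} {c : ℝ} (hc : c ≠ 0) (hY : Y = c • TT_to b (H : L)) (D : Dg Y)

theorem mem_Q_iff (g : autC b) : g ∈ (geoS h hA H hc hY).Q ↔ Tr D.h (D.co (mx g)) := by
  rw [geoS_Q]
  change g ∈ (Pg Y).subgroupOf (autC b) ↔ _
  rw [Subgroup.mem_subgroupOf, mem_Pg_iff D.UU D.UU' D.spec]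
  rfl

theorem co_Dh (q : Qg (autC b) Y) (i j : Fin N) :
    D.co ((Dh Y (toPg (autC b) Y q) : GL (Fin N) ℝ) : Mat N) i j = if D.h i = D.h j then D.co (mx (q : autC b)) i j else 0 := by
  rw [Dh_coe D.UU D.UU' D.spec, toPg_coe]
  unfold Dg.co
  rw [Pool.Agent.Helper46.FQ.back' D.UU, bd_apply]
  rfl

theorem nb_mem_K (q : (geoS h hA H hc hY).Q) (hq : ∃ (u : Mat N) (s : ℝ), uᵀ * u = 1 ∧ (∀ i j, D.h i ≠ D.h j → u i j = 0) ∧
      ∀ i j, D.h i = D.h j → D.co (mx (q : autC b)) i j = Real.exp (s * D.h i) * u i j) :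
    (geoS h hA H hc hY).nb q ∈ Pool.Agent.Helper87.FQ.KS h hA H := by
  obtain ⟨u, s, hu, hu0, huq⟩ := hq
  rw [geoS_nb]
  have hu' : u * uᵀ = 1 := by rw [← mul_eq_one_comm]; exact hu
  -- the orthogonal matrix
  let w : GL (Fin N) ℝ := ⟨D.U * u * D.Uᵀ, D.U * uᵀ * D.Uᵀ, by
    calc D.U * u * D.Uᵀ * (D.U * uᵀ * D.Uᵀ) = D.U * u * (D.Uᵀ * D.U) * uᵀ * D.Uᵀ := by simp only [Matrix.mul_assoc]
      _ = D.U * (u * uᵀ) * D.Uᵀ := by rw [D.UU, Matrix.mul_one]; simp only [Matrix.mul_assoc]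
      _ = 1 := by rw [hu', Matrix.mul_one, D.UU'], by
    calc D.U * uᵀ * D.Uᵀ * (D.U * u * D.Uᵀ) = D.U * uᵀ * (D.Uᵀ * D.U) * u * D.Uᵀ := by simp only [Matrix.mul_assoc]
      _ = D.U * (uᵀ * u) * D.Uᵀ := by rw [D.UU, Matrix.mul_one]; simp only [Matrix.mul_assoc]
      _ = 1 := by rw [hu, Matrix.mul_one, D.UU']⟩
  have hw : (w : Mat N) = D.U * u * D.Uᵀ := rfl
  have hwc : D.co (w : Mat N) = u := Pool.Agent.Helper46.FQ.back' D.UU u
  refine nbS_mem_KS h hA H hc hY q (t := s) (u := w) ((D.orth_iff).2 (by rw [hwc]; exact hu)) ?_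
  refine Units.ext (D.co_inj ?_)
  ext i j
  rw [co_Dh, Units.val_mul, D.co_mul, D.co_ex, hwc, diagonal_mul]
  split_ifs with hij
  · exact huq i j hij
  · rw [hu0 i j hij, mul_zero]

theorem nb_ker (hH : ∀ x : A, (∀ φ ∈ rootsL A, φ H = 0 → φ x = 0) → ∃ c : ℝ, x = c • H) (q : (geoS h hA H hc hY).Q)
    (hq : (geoS h hA H hc hY).nb q = 1) : ∃ k ∈ CN (geoS h hA H hc hY), ∃ τ : ℝ, ∀ i j, D.h i = D.h j →
      D.co (mx (k⁻¹ * (q : autC b))) i j = if i = j then Real.exp (τ * D.h i) else 0 := by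
  rw [geoS_nb] at hq
  change Qg (autC b) Y at q
  obtain ⟨k, hk, hkY, hk1, t, ht⟩ := nbS_ker h hA H hc hY hH hq
  refine ⟨(k : autC b), ⟨hk, k.2, hk1⟩, t, fun i j hij => ?_⟩
  have h1 := co_Dh D (k⁻¹ * q) i j
  rw [if_pos hij] at h1
  have h2 : mx ((k : autC b)⁻¹ * (q : autC b)) = mx ((k⁻¹ * q : Qg (autC b) Y) : autC b) := rfl
  rw [h2, ← h1, map_mul, map_mul, map_inv, map_inv, ht]
  have h3 : Dh Y (toPg (autC b) Y k) = ((k : autC b) : GL (Fin N) ℝ) := Dh_of_commute _ hkY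
  rw [h3, inv_mul_cancel_left, D.co_ex, diagonal_apply]

end Pool.Agent.Helper78.FQ
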